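import Pool.Agent.SGP51.Defs

/-!
# The number of pairs of primes `(q, p)` with `p + 9 (q + 1)` a square
-/

set_option autoImplicit false

open ArithmeticFunction

namespace Pool.Agent.SGP51

open Pool.Agent.ANT Pool.Agent.SqSig

lemma QQ_le (S : ℕ) : QQ S ≤ S ^ 2 := by
  unfold QQ
  exact Nat.div_le_self _ _

lemma lt_sq {S r q : ℕ} (hS : 12 ≤ S) (hr : S / 2 < r) (hq : q ≤ QQ S) :
    9 * (q + 1) < r ^ 2 := by
  have h1 : S + 1 ≤ 2 * r := by omega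
  have h2 : (S + 1) ^ 2 ≤ (2 * r) ^ 2 := Nat.pow_le_pow_left h1 2
  have h3 : 50 * q ≤ S ^ 2 := by
    have h4 : 50 * QQ S ≤ S ^ 2 := by
      unfold QQ
      exact Nat.mul_div_le _ _
    omega
  nlinarith

lemma sum_np_q (S : ℕ) :
    ∑ q ∈ Finset.Ioc 0 (QQ S), (if ¬ q.Prime then Λ q else 0) ≤ NP (S ^ 2) := by
  unfold NP
  rw [← Finset.sum_filter]
  refine Finset.sum_le_sum_of_subset_of_nonneg ?_ fun _ _ _ => ArithmeticFunction.vonMangoldt_nonneg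
  intro x hx
  obtain ⟨h1, h2⟩ := Finset.mem_filter.mp hx
  obtain ⟨h3, h4⟩ := Finset.mem_Ioc.mp h1
  have h5 := QQ_le S
  exact Finset.mem_filter.mpr ⟨Finset.mem_Ioc.mpr ⟨by omega, by omega⟩, h2⟩

lemma sum_np_p {S r : ℕ} (hS : 12 ≤ S) (hr : S / 2 < r) (hrS : r ≤ S) :
    ∑ q ∈ Finset.Ioc 0 (QQ S), (if ¬ (r ^ 2 - 9 * (q + 1)).Prime then Λ (r ^ 2 - 9 * (q + 1)) else 0)
      ≤ NP (S ^ 2) := by
  classical
  unfold NP
  rw [← Finset.sum_filter]
  have hinj : Set.InjOn (fun q => r ^ 2 - 9 * (q + 1)) (((Finset.Ioc 0 (QQ S)).filter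
      (fun q => ¬ (r ^ 2 - 9 * (q + 1)).Prime) : Finset ℕ) : Set ℕ) := by
    intro a ha b hb hab
    simp only [Finset.coe_filter, Finset.mem_Ioc, Set.mem_ofPred_eq] at ha hb hab
    have h1 := lt_sq hS hr ha.1.2
    have h2 := lt_sq hS hr hb.1.2
    omega
  rw [← Finset.sum_image (f := fun y => Λ y) hinj]
  refine Finset.sum_le_sum_of_subset_of_nonneg ?_ fun _ _ _ => ArithmeticFunction.vonMangoldt_nonneg
  intro y hy
  obtain ⟨q, hq, rfl⟩ := Finset.mem_image.mp hy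
  obtain ⟨h1, h2⟩ := Finset.mem_filter.mp hq
  obtain ⟨h3, h4⟩ := Finset.mem_Ioc.mp h1
  have h5 := lt_sq hS hr h4
  have h6 : r ^ 2 ≤ S ^ 2 := Nat.pow_le_pow_left hrS 2
  exact Finset.mem_filter.mpr ⟨Finset.mem_Ioc.mpr ⟨by omega, by omega⟩, h2⟩

lemma BB_le_pairs {S : ℕ} (hS : 12 ≤ S) : BB S (QQ S) (fun n => Λ n) (fun n => Λ n) ≤
    LL (S ^ 2) ^ 2 * (∑ r ∈ Finset.Ioc (S / 2) S, (((Finset.Ioc 0 (QQ S)).filter
      (fun q => q.Prime ∧ (r ^ 2 - 9 * (q + 1)).Prime)).card : ℝ)) +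
      2 * S * LL (S ^ 2) * NP (S ^ 2) := by
  set L := LL (S ^ 2) with hLdef
  have hL : 1 ≤ L := one_le_LL _
  have hNP0 : 0 ≤ NP (S ^ 2) := by
    unfold NP
    exact Finset.sum_nonneg fun _ _ => ArithmeticFunction.vonMangoldt_nonneg
  have h1 : ∀ r ∈ Finset.Ioc (S / 2) S,
      ∑ q ∈ Finset.Ioc 0 (QQ S), Λ (r ^ 2 - 9 * (q + 1)) * Λ q ≤
      L ^ 2 * (((Finset.Ioc 0 (QQ S)).filter
        (fun q => q.Prime ∧ (r ^ 2 - 9 * (q + 1)).Prime)).card : ℝ) + 2 * (L * NP (S ^ 2)) := by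
    intro r hr
    obtain ⟨hr1, hr2⟩ := Finset.mem_Ioc.mp hr
    have hrS : r ^ 2 ≤ S ^ 2 := Nat.pow_le_pow_left hr2 2
    have h2 : ∀ q ∈ Finset.Ioc 0 (QQ S), Λ (r ^ 2 - 9 * (q + 1)) * Λ q ≤
        (if q.Prime ∧ (r ^ 2 - 9 * (q + 1)).Prime then L ^ 2 else 0) +
        L * (if ¬ q.Prime then Λ q else 0) +
        L * (if ¬ (r ^ 2 - 9 * (q + 1)).Prime then Λ (r ^ 2 - 9 * (q + 1)) else 0) := by
      intro q hq
      obtain ⟨hq1, hq2⟩ := Finset.mem_Ioc.mp hq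
      have hlt := lt_sq hS hr1 hq2
      have hQ := QQ_le S
      have e1 : Λ q ≤ L := lam_le_LL hq1 (by omega)
      have e2 : Λ (r ^ 2 - 9 * (q + 1)) ≤ L := lam_le_LL (by omega) (by omega)
      have e3 : 0 ≤ Λ q := ArithmeticFunction.vonMangoldt_nonneg
      have e4 : 0 ≤ Λ (r ^ 2 - 9 * (q + 1)) := ArithmeticFunction.vonMangoldt_nonneg
      by_cases p1 : q.Prime
      · by_cases p2 : (r ^ 2 - 9 * (q + 1)).Prime
        · rw [if_pos ⟨p1, p2⟩, if_neg (not_not.mpr p1), if_neg (not_not.mpr p2)]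
          nlinarith
        · rw [if_neg (fun h => p2 h.2), if_neg (not_not.mpr p1), if_pos p2]
          nlinarith
      · rw [if_neg (fun h => p1 h.1), if_pos p1]
        have : 0 ≤ L * (if ¬ (r ^ 2 - 9 * (q + 1)).Prime then Λ (r ^ 2 - 9 * (q + 1)) else 0) := by
          refine mul_nonneg (by linarith) ?_
          split_ifs <;> first | exact e4 | exact le_rfl
        nlinarith
    refine (Finset.sum_le_sum h2).trans ?_
    rw [Finset.sum_add_distrib, Finset.sum_add_distrib, ← Finset.sum_filter, Finset.sum_const,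
      nsmul_eq_mul, ← Finset.mul_sum, ← Finset.mul_sum]
    have h3 := mul_le_mul_of_nonneg_left (sum_np_q S) (by linarith : 0 ≤ L)
    have h4 := mul_le_mul_of_nonneg_left (sum_np_p hS hr1 hr2) (by linarith : 0 ≤ L)
    linarith
  unfold BB
  refine (Finset.sum_le_sum h1).trans ?_
  rw [Finset.sum_add_distrib, ← Finset.mul_sum, Finset.sum_const, nsmul_eq_mul, Nat.card_Ioc]
  have h5 : ((S - S / 2 : ℕ) : ℝ) ≤ S := by exact_mod_cast Nat.sub_le S (S / 2)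
  have h6 : ((S - S / 2 : ℕ) : ℝ) * (2 * (L * NP (S ^ 2))) ≤ S * (2 * (L * NP (S ^ 2))) :=
    mul_le_mul_of_nonneg_right h5 (by positivity)
  nlinarith

lemma pairs_le (S : ℕ) : ∑ r ∈ Finset.Ioc (S / 2) S, (((Finset.Ioc 0 (QQ S)).filter
      (fun q => q.Prime ∧ (r ^ 2 - 9 * (q + 1)).Prime)).card : ℝ) ≤ (Pq S).card + S := by
  classical
  have h1 : ∑ r ∈ Finset.Ioc (S / 2) S, ((Finset.Ioc 0 (QQ S)).filter
      (fun q => q.Prime ∧ (r ^ 2 - 9 * (q + 1)).Prime)).card ≤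
      (Pq S ∪ (Finset.Ioc (S / 2) S).image (fun r => (r, 2))).card := by
    rw [← Finset.card_sigma]
    refine Finset.card_le_card_of_injOn (fun s => (s.1, s.2)) ?_ ?_
    · rintro ⟨r, x⟩ hs
      simp only [Finset.coe_sigma, Set.mem_sigma_iff, Finset.mem_coe, Finset.mem_filter,
        Finset.mem_Ioc] at hs
      obtain ⟨⟨hr1, hr2⟩, ⟨hx1, hx2⟩, p1, p2⟩ := hs
      simp only [Finset.coe_union, Set.mem_union, Finset.mem_coe]
      by_cases h : x = 2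
      · right
        subst h
        exact Finset.mem_image.mpr ⟨r, Finset.mem_Ioc.mpr ⟨hr1, hr2⟩, rfl⟩
      · left
        exact Finset.mem_filter.mpr ⟨Finset.mem_product.mpr ⟨Finset.mem_Ioc.mpr ⟨hr1, hr2⟩,
          Finset.mem_Ioc.mpr ⟨hx1, hx2⟩⟩, p1, p2, h⟩
    · rintro ⟨r, x⟩ _ ⟨r', x'⟩ _ h
      simp only [Prod.mk.injEq] at h
      obtain ⟨rfl, rfl⟩ := h
      rfl
  have h2 : (Pq S ∪ (Finset.Ioc (S / 2) S).image (fun r => (r, 2))).card ≤ (Pq S).card + S := by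
    refine (Finset.card_union_le _ _).trans (Nat.add_le_add_left ?_ _)
    refine Finset.card_image_le.trans ?_
    rw [Nat.card_Ioc]
    exact Nat.sub_le _ _
  exact_mod_cast h1.trans h2

/-- **First moment.** -/
theorem first_moment (h : ∀ᶠ S : ℕ in Filter.atTop,
      (S:ℝ) ^ 3 / 1000 ≤ BB S (QQ S) (fun n => Λ n) (fun n => Λ n)) :
    ∃ c : ℝ, 0 < c ∧ ∀ᶠ S : ℕ in Filter.atTop, c * (S:ℝ) ^ 3 / LL (S ^ 2) ^ 2 ≤ (Pq S).card := by
  obtain ⟨C, hC, hNP⟩ := NP_le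
  refine ⟨1 / 2000, by norm_num, ?_⟩
  have hlim : Filter.Tendsto (fun S : ℕ => LL (S ^ 2) ^ 2 / (S:ℝ)) Filter.atTop (nhds 0) := by
    have h1 : Filter.Tendsto (fun x : ℝ => (1 + 2 * Real.log x) ^ 2 / x) Filter.atTop (nhds 0) := by
      have h3 : Filter.Tendsto (fun x : ℝ => Real.log x ^ 2 / (1 * x + 0)) Filter.atTop (nhds 0) :=
        Real.tendsto_pow_log_div_mul_add_atTop 1 0 2 one_ne_zero
      have h4 : Filter.Tendsto (fun x : ℝ => Real.log x ^ 1 / (1 * x + 0)) Filter.atTop (nhds 0) :=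
        Real.tendsto_pow_log_div_mul_add_atTop 1 0 1 one_ne_zero
      have h5 : Filter.Tendsto (fun x : ℝ => Real.log x ^ 0 / (1 * x + 0)) Filter.atTop (nhds 0) :=
        Real.tendsto_pow_log_div_mul_add_atTop 1 0 0 one_ne_zero
      have h6 := (h5.add (h4.const_mul 4)).add (h3.const_mul 4)
      simp only [mul_zero, add_zero] at h6
      refine h6.congr fun x => ?_
      simp only [one_mul, pow_zero, pow_one]
      ring
    have h7 := h1.comp (tendsto_natCast_atTop_atTop (R := ℝ))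
    refine h7.congr fun S => ?_
    simp only [Function.comp, LL]
    push_cast
    rw [Real.log_pow]
    push_cast
    rfl
  have hsmall : ∀ᶠ S : ℕ in Filter.atTop, LL (S ^ 2) ^ 2 / (S:ℝ) < 1 / (2000 * (2 * C + 1)) :=
    (hlim.eventually (gt_mem_nhds (by positivity)))
  filter_upwards [h, hsmall, Filter.eventually_ge_atTop 12] with S h1 h2 hS
  have hSR : (12:ℝ) ≤ S := by exact_mod_cast hS
  have hS0 : (0:ℝ) < S := by linarith
  have h3 := BB_le_pairs hS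
  have h4 := pairs_le S
  have h5 := hNP S
  set L := LL (S ^ 2) with hLdef
  have hL : 1 ≤ L := one_le_LL _
  set N := ∑ r ∈ Finset.Ioc (S / 2) S, (((Finset.Ioc 0 (QQ S)).filter
      (fun q => q.Prime ∧ (r ^ 2 - 9 * (q + 1)).Prime)).card : ℝ) with hN
  have h6 : L ^ 2 * N ≤ L ^ 2 * ((Pq S).card + S) := mul_le_mul_of_nonneg_left h4 (by positivity)
  have h7 : 2 * S * L * NP (S ^ 2) ≤ 2 * C * S ^ 2 * L ^ 2 := by
    have : 2 * S * L * NP (S ^ 2) ≤ 2 * S * L * (C * S) := mul_le_mul_of_nonneg_left h5 (by positivity)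
    have h8 : L ≤ L ^ 2 := by nlinarith
    calc 2 * S * L * NP (S ^ 2) ≤ 2 * S * L * (C * S) := this
      _ = 2 * C * S ^ 2 * L := by ring
      _ ≤ _ := by gcongr
  have h9 : L ^ 2 * S + 2 * C * S ^ 2 * L ^ 2 ≤ (2 * C + 1) * S ^ 2 * L ^ 2 := by
    have : L ^ 2 * S ≤ L ^ 2 * S ^ 2 := by
      refine mul_le_mul_of_nonneg_left ?_ (by positivity)
      nlinarith
    nlinarith
  have h10 : (2 * C + 1) * S ^ 2 * L ^ 2 ≤ S ^ 3 / 2000 := by
    rw [div_lt_iff₀ hS0] at h2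
    have h11 : L ^ 2 * (2000 * (2 * C + 1)) ≤ S := by
      have := mul_le_mul_of_nonneg_right h2.le (by positivity : 0 ≤ 2000 * (2 * C + 1))
      calc L ^ 2 * (2000 * (2 * C + 1)) ≤ 1 / (2000 * (2 * C + 1)) * S * (2000 * (2 * C + 1)) := this
        _ = S := by field_simp
    have h12 := mul_le_mul_of_nonneg_left h11 (by positivity : (0:ℝ) ≤ (S:ℝ) ^ 2)
    nlinarith
  rw [div_le_iff₀ (by positivity)]
  nlinarith

end Pool.Agent.SGP51
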