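import Pool.Agent.SGP51.Split

/-!
# The lower bound for the weighted number of pairs, from the main term
-/

set_option autoImplicit false

open Complex ArithmeticFunction

namespace Pool.Agent.SGP51

open Pool.Agent.ANT Pool.Agent.SqSig

theorem BB_main_of (E : ℝ) (hsh : ∀ S Q D : ℕ, 9 * (Q + 1) < (S / 2 + 1) ^ 2 →
      ((S - S / 2 : ℕ) : ℝ) * Q * VV D ^ 2 - E * (D:ℝ) ^ 3 * ((S:ℝ) + Q) ≤ BB S Q (sh D) (sh D)) :
    ∀ᶠ S : ℕ in Filter.atTop, (S:ℝ) ^ 3 / 1000 ≤ BB S (QQ S) (fun n => Λ n) (fun n => Λ n) := by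
  obtain ⟨C', hC', hV⟩ := VV_bound
  have e2 : ∀ᶠ D : ℕ in Filter.atTop, 2 * C' ≤ Real.log D :=
    (Real.tendsto_log_atTop.comp tendsto_natCast_atTop_atTop).eventually_ge_atTop _
  have e3 := tendsto_Dc.eventually e2
  have e4 : ∀ᶠ S : ℕ in Filter.atTop, 3 ≤ Dc S := tendsto_Dc.eventually_ge_atTop _
  have e5 : ∀ᶠ D : ℕ in Filter.atTop, 20000 * |E| ≤ (D:ℝ) :=
    tendsto_natCast_atTop_atTop.eventually_ge_atTop _
  have e6 := tendsto_Dc.eventually e5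
  filter_upwards [BB_lower (1 / 2000) (by norm_num), e3, e4, e6, Filter.eventually_ge_atTop 1000]
    with S hlow h3 h4 h6 hS
  set D := Dc S with hD
  set Q := QQ S with hQ
  have hSR : (1000:ℝ) ≤ S := by exact_mod_cast hS
  have hDR : (3:ℝ) ≤ D := by exact_mod_cast h4
  have hlD : 0 < Real.log D := Real.log_pos (by linarith)
  have hV1 := hV D h4
  have hV2 : |1 + VV D| ≤ 1 / 2 := by
    refine hV1.trans ?_
    rw [div_le_iff₀ hlD]; linarith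
  have hV3 : 1 / 4 ≤ VV D ^ 2 := by
    rw [abs_le] at hV2
    nlinarith [hV2.1, hV2.2]
  have hmain := hsh S Q D (QQ_ok (by omega))
  -- sizes
  have hs1 : (S:ℝ) / 2 ≤ ((S - S / 2 : ℕ) : ℝ) := by
    have h1 : S ≤ 2 * (S - S / 2) := by omega
    have h2 : (S:ℝ) ≤ 2 * ((S - S / 2 : ℕ) : ℝ) := by exact_mod_cast h1
    linarith
  have hQ1 : (S:ℝ) ^ 2 / 51 ≤ (Q:ℝ) := by
    have h1 : S ^ 2 < 50 * (Q + 1) := by
      rw [hQ]
      unfold QQ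
      exact Nat.lt_mul_div_succ (S ^ 2) (by norm_num)
    have h2 : (S:ℝ) ^ 2 < 50 * ((Q:ℝ) + 1) := by exact_mod_cast h1
    nlinarith
  have hQ2 : (Q:ℝ) ≤ (S:ℝ) ^ 2 / 50 := by
    rw [hQ]
    unfold QQ
    have := @Nat.cast_div_le ℝ _ _ _ (S ^ 2) 50
    push_cast at this
    exact this
  have hDp : (D:ℝ) ^ 4 ≤ S := by exact_mod_cast Dc_pow S
  have hD3 : |E| * (D:ℝ) ^ 3 ≤ S / 20000 := by
    have h1 : 20000 * |E| * (D:ℝ) ^ 3 ≤ D * (D:ℝ) ^ 3 := mul_le_mul_of_nonneg_right h6 (by positivity)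
    have h2 : (D:ℝ) * (D:ℝ) ^ 3 = D ^ 4 := by ring
    rw [h2] at h1
    linarith
  have herr : E * (D:ℝ) ^ 3 * ((S:ℝ) + Q) ≤ (S:ℝ) ^ 3 / 20000 := by
    have h1 : E * (D:ℝ) ^ 3 ≤ S / 20000 :=
      (mul_le_mul_of_nonneg_right (le_abs_self E) (by positivity)).trans hD3
    have h2 : (S:ℝ) + Q ≤ S ^ 2 := by nlinarith
    have h3 : (0:ℝ) ≤ (S:ℝ) + Q := by positivity
    calc E * (D:ℝ) ^ 3 * ((S:ℝ) + Q) ≤ S / 20000 * ((S:ℝ) + Q) := mul_le_mul_of_nonneg_right h1 h3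
      _ ≤ S / 20000 * S ^ 2 := mul_le_mul_of_nonneg_left h2 (by positivity)
      _ = _ := by ring
  have hprod : (S:ℝ) / 2 * ((S:ℝ) ^ 2 / 51) * (1 / 4) ≤ ((S - S / 2 : ℕ) : ℝ) * Q * VV D ^ 2 := by
    have h0 : (0:ℝ) ≤ ((S - S / 2 : ℕ) : ℝ) := Nat.cast_nonneg _
    gcongr
  have hS3 : (0:ℝ) ≤ (S:ℝ) ^ 3 := by positivity
  have hp2 : (S:ℝ) / 2 * ((S:ℝ) ^ 2 / 51) * (1 / 4) = (S:ℝ) ^ 3 / 408 := by ring
  rw [hp2] at hprod
  linarith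

end Pool.Agent.SGP51
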