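import Pool.Agent.SGP51.CountB
import Pool.Agent.SGP51.Lower
import Pool.Agent.SGP51.First

/-!
# The first moment
-/

set_option autoImplicit false

open ArithmeticFunction

namespace Pool.Agent.SGP51

open Pool.Agent.ANT Pool.Agent.SqSig

theorem BB_main : ∀ᶠ S : ℕ in Filter.atTop,
    (S:ℝ) ^ 3 / 1000 ≤ BB S (QQ S) (fun n => Λ n) (fun n => Λ n) :=
  BB_main_of 4 (fun S Q D h => BB_sh S Q D h)

/-- many pairs of primes `p + 9 (q + 1) = r ^ 2` -/
theorem many_pairs : ∃ c : ℝ, 0 < c ∧ ∀ᶠ S : ℕ in Filter.atTop,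
    c * (S:ℝ) ^ 3 / LL (S ^ 2) ^ 2 ≤ (Pq S).card :=
  first_moment BB_main

end Pool.Agent.SGP51
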