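import Pool.Agent.SqSig.Fin

/-!
# Sun's Goldbach problem with a Legendre symbol condition: a positive proportion of `n`

If `p + 9 (q + 1) = s ^ 2`, then `(q + 1) / 2` is a square modulo `p + q + 1`. Definitions.
-/

set_option autoImplicit false

namespace Pool.Agent.SGP51

open Pool.Agent.ANT Pool.Agent.SqSig

/-- the bilinear form over `x = r ^ 2 - 9 (q + 1)`, `S / 2 < r ≤ S`, `1 ≤ q ≤ Q` -/
noncomputable def BB (S Q : ℕ) (f g : ℕ → ℝ) : ℝ :=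
  ∑ r ∈ Finset.Ioc (S / 2) S, ∑ q ∈ Finset.Ioc 0 Q, f (r ^ 2 - 9 * (q + 1)) * g q

/-- the function `g` transported to the numbers `9 (q + 1)`, `1 ≤ q ≤ Q` -/
noncomputable def tr (Q : ℕ) (g : ℕ → ℝ) (y : ℕ) : ℝ :=
  if 9 ∣ y ∧ 2 ≤ y / 9 ∧ y / 9 ≤ Q + 1 then g (y / 9 - 1) else 0

/-- the range of `q` -/
def QQ (S : ℕ) : ℕ := S ^ 2 / 50

/-- the pairs of primes -/
def Pq (S : ℕ) : Finset (ℕ × ℕ) :=
  ((Finset.Ioc (S / 2) S) ×ˢ (Finset.Ioc 0 (QQ S))).filter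
    (fun t => t.2.Prime ∧ (t.1 ^ 2 - 9 * (t.2 + 1)).Prime ∧ t.2 ≠ 2)

/-- triangular numbers -/
def Tr (a : ℕ) : ℕ := a * (a + 1) / 2

/-- the `a` with `q = T(a) - 1 - m` and `p = 9 m + 1 - T(a)` both prime -/
def Ra (S m : ℕ) : Finset ℕ := (Finset.Ioc 0 S).filter
  (fun a => m + 1 < Tr a ∧ Tr a < 9 * m + 1 ∧ (Tr a - 1 - m).Prime ∧ (9 * m + 1 - Tr a).Prime)

end Pool.Agent.SGP51
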