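import Pool.Agent.SGP51.Split

/-!
# The main term: pairs `(r, q)` with `d ∣ r ^ 2 - 9 (q + 1)`, `e ∣ q`
-/

set_option autoImplicit false

open Complex ArithmeticFunction

namespace Pool.Agent.SGP51

open Pool.Agent.ANT Pool.Agent.SqSig

/-! ### the sum over `q` -/

/-- number of `q` for a fixed `r` -/
def cq (Q d e r : ℕ) : ℕ :=
  ((Finset.Ioc 0 Q).filter (fun q => e ∣ q ∧ d ∣ r ^ 2 - 9 * (q + 1))).card

/-- the part of `d` prime to `3` -/
def d1 (d : ℕ) : ℕ := d / Nat.gcd d 3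

lemma d1_mul (d : ℕ) : Nat.gcd d 3 * d1 d = d := Nat.mul_div_cancel' (Nat.gcd_dvd_left d 3)

lemma d1_cop {d : ℕ} (hd : Squarefree d) : Nat.Coprime (Nat.gcd d 3) (d1 d) := by
  have h : Squarefree (Nat.gcd d 3 * d1 d) := by rw [d1_mul]; exact hd
  exact (Nat.squarefree_mul_iff.mp h).1

lemma d1_sqf {d : ℕ} (hd : Squarefree d) : Squarefree (d1 d) := by
  have h : Squarefree (Nat.gcd d 3 * d1 d) := by rw [d1_mul]; exact hd
  exact (Nat.squarefree_mul_iff.mp h).2.2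

lemma d1_three {d : ℕ} (hd : Squarefree d) : Nat.Coprime (d1 d) 3 := by
  rw [Nat.coprime_comm, Nat.Prime.coprime_iff_not_dvd Nat.prime_three]
  intro h
  have h1 : 3 ∣ d := h.trans (Dvd.intro_left _ (d1_mul d))
  have h2 : Nat.gcd d 3 = 3 := Nat.gcd_eq_right h1
  have h3 := d1_cop hd
  rw [h2, Nat.Prime.coprime_iff_not_dvd Nat.prime_three] at h3
  exact h3 h

lemma dvd_split {d r q : ℕ} (hd : Squarefree d) (hr : 9 * (q + 1) ≤ r ^ 2) :
    d ∣ r ^ 2 - 9 * (q + 1) ↔ Nat.gcd d 3 ∣ r ∧ d1 d ∣ r ^ 2 - 9 * (q + 1) := by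
  have h1 : Nat.gcd d 3 ∣ r ^ 2 - 9 * (q + 1) ↔ Nat.gcd d 3 ∣ r := by
    rcases (Nat.dvd_prime Nat.prime_three).mp (Nat.gcd_dvd_right d 3) with h | h
    · rw [h]; simp
    · rw [h]
      have h2 : 3 ∣ r ^ 2 - 9 * (q + 1) ↔ 3 ∣ r ^ 2 := by omega
      rw [h2]
      exact ⟨fun h3 => Nat.prime_three.dvd_of_dvd_pow h3, fun h3 => h3.trans (dvd_pow_self r (by norm_num))⟩
  constructor
  · intro h
    exact ⟨h1.mp ((Nat.gcd_dvd_left d 3).trans h), (Dvd.intro_left _ (d1_mul d)).trans h⟩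
  · rintro ⟨h2, h3⟩
    have h4 := (d1_cop hd).mul_dvd_of_dvd_of_dvd (h1.mpr h2) h3
    rwa [d1_mul] at h4

lemma cq_zero {Q d e r : ℕ} (hd : Squarefree d) (hr : 9 * (Q + 1) < r ^ 2)
    (h : ¬ (Nat.gcd d 3 ∣ r ∧ Nat.gcd (d1 d) e ∣ r ^ 2 - 9)) : cq Q d e r = 0 := by
  unfold cq
  rw [Finset.card_eq_zero, Finset.filter_eq_empty_iff]
  rintro q hq ⟨h1, h2⟩
  obtain ⟨h3, h4⟩ := Finset.mem_Ioc.mp hq
  obtain ⟨h5, h6⟩ := (dvd_split hd (by omega)).mp h2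
  apply h
  refine ⟨h5, ?_⟩
  have h7 : Nat.gcd (d1 d) e ∣ r ^ 2 - 9 * (q + 1) := (Nat.gcd_dvd_left _ _).trans h6
  have h8 : Nat.gcd (d1 d) e ∣ 9 * q := ((Nat.gcd_dvd_right _ _).trans h1).mul_left 9
  have h9 := Nat.dvd_add h7 h8
  have h10 : r ^ 2 - 9 * (q + 1) + 9 * q = r ^ 2 - 9 := by omega
  rwa [h10] at h9

lemma cq_est {Q d e r : ℕ} (hd : Squarefree d) (he : 0 < e) (hr : 9 * (Q + 1) < r ^ 2)
    (h3 : Nat.gcd d 3 ∣ r) (hg : Nat.gcd (d1 d) e ∣ r ^ 2 - 9) :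
    |(cq Q d e r : ℝ) - (Q:ℝ) / (Nat.lcm (d1 d) e : ℕ)| ≤ 1 := by
  have hd0 : 0 < d1 d := Nat.pos_of_ne_zero (d1_sqf hd).ne_zero
  have hl : 0 < Nat.lcm (d1 d) e := Nat.lcm_pos hd0 he
  have hc9 : Nat.Coprime 9 (d1 d) := by
    have : Nat.Coprime (3 ^ 2) (d1 d) := Nat.Coprime.pow_left 2 (d1_three hd).symm
    simpa using this
  -- w with 9 w = r^2 - 9
  obtain ⟨x, hx1, hx2⟩ := Nat.chineseRemainder hc9 0 (r ^ 2 - 9)
  have hx3 : 9 ∣ x := Nat.modEq_zero_iff_dvd.mp hx1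
  obtain ⟨w, hw⟩ := hx3
  have hgw : Nat.gcd (d1 d) e ∣ w := by
    have h5 : x ≡ r ^ 2 - 9 [MOD Nat.gcd (d1 d) e] := hx2.of_dvd (Nat.gcd_dvd_left _ _)
    have h6 : r ^ 2 - 9 ≡ 0 [MOD Nat.gcd (d1 d) e] := Nat.modEq_zero_iff_dvd.mpr hg
    have h7 : Nat.gcd (d1 d) e ∣ 9 * w := by
      rw [← hw]
      exact Nat.modEq_zero_iff_dvd.mp (h5.trans h6)
    have h8 : Nat.Coprime (Nat.gcd (d1 d) e) 9 :=
      (Nat.Coprime.coprime_dvd_left (Nat.gcd_dvd_left _ _) hc9.symm)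
    exact h8.dvd_of_dvd_mul_left h7
  have hcomp : w ≡ 0 [MOD Nat.gcd (d1 d) e] := Nat.modEq_zero_iff_dvd.mpr hgw
  obtain ⟨z, hz1, hz2⟩ := Nat.chineseRemainder' hcomp
  have hset : (Finset.Ioc 0 Q).filter (fun q => e ∣ q ∧ d ∣ r ^ 2 - 9 * (q + 1)) =
      (Finset.Ico 1 (1 + Q)).filter (fun q => q ≡ z [MOD Nat.lcm (d1 d) e]) := by
    have h0 : Finset.Ioc 0 Q = Finset.Ico 1 (1 + Q) := by
      ext q; simp only [Finset.mem_Ioc, Finset.mem_Ico]; omega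
    rw [h0]
    refine Finset.filter_congr fun q hq => ?_
    obtain ⟨h4, h5⟩ := Finset.mem_Ico.mp hq
    rw [dvd_split hd (show 9 * (q + 1) ≤ r ^ 2 by omega)]
    have e1 : d1 d ∣ r ^ 2 - 9 * (q + 1) ↔ 9 * q ≡ r ^ 2 - 9 [MOD d1 d] := by
      rw [Nat.modEq_iff_dvd' (show 9 * q ≤ r ^ 2 - 9 by omega)]
      have e2 : r ^ 2 - 9 - 9 * q = r ^ 2 - 9 * (q + 1) := by omega
      rw [e2]
    have e3 : 9 * q ≡ r ^ 2 - 9 [MOD d1 d] ↔ q ≡ w [MOD d1 d] := by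
      rw [hw] at hx2
      constructor
      · intro h6
        exact Nat.ModEq.cancel_left_of_coprime (by rw [Nat.gcd_comm]; exact hc9) (h6.trans hx2.symm)
      · intro h6
        exact (h6.mul_left 9).trans hx2
    rw [e1, e3]
    constructor
    · rintro ⟨h6, _, h7⟩
      exact Nat.mod_lcm (h7.trans hz1.symm) ((Nat.modEq_zero_iff_dvd.mpr h6).trans hz2.symm)
    · intro h6
      exact ⟨Nat.modEq_zero_iff_dvd.mp ((h6.of_dvd (Nat.dvd_lcm_right _ _)).trans hz2), h3,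
        (h6.of_dvd (Nat.dvd_lcm_left _ _)).trans hz1⟩
  unfold cq
  rw [hset]
  exact Pool.Agent.Lib.Sieve.abs_card_modEq_sub_le 1 Q hl z


/-! ### the sum over `r` -/

/-- odd divisors -/
def od (g : ℕ) : Finset ℕ := g.divisors.filter (fun c => Nat.Coprime c 2)

lemma odd_part {g : ℕ} (hg : Squarefree g) : Nat.Coprime (Nat.gcd g 2) (g / Nat.gcd g 2) ∧
    Nat.Coprime (g / Nat.gcd g 2) 2 := by
  have e : Nat.gcd g 2 * (g / Nat.gcd g 2) = g := Nat.mul_div_cancel' (Nat.gcd_dvd_left g 2)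
  have h : Squarefree (Nat.gcd g 2 * (g / Nat.gcd g 2)) := by rw [e]; exact hg
  have h1 := (Nat.squarefree_mul_iff.mp h).1
  refine ⟨h1, ?_⟩
  rw [Nat.coprime_comm, Nat.Prime.coprime_iff_not_dvd Nat.prime_two]
  intro h2
  have h3 : 2 ∣ g := h2.trans (Dvd.intro_left _ e)
  have h4 : Nat.gcd g 2 = 2 := Nat.gcd_eq_right h3
  rw [h4, Nat.Prime.coprime_iff_not_dvd Nat.prime_two] at h1
  rw [h4] at h2
  exact h1 h2

/-- the class attached to an odd divisor -/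
def Ac (g m A B c : ℕ) : Finset ℕ :=
  (Finset.Ioc A B).filter (fun r => m ∣ r ∧ g / c ∣ r - 3 ∧ c ∣ r + 3)

lemma six_cop {a r : ℕ} (h2 : Nat.Coprime a 2) (h3 : Nat.Coprime a 3) (hr : 3 ≤ r) (h : a ∣ r - 3) :
    Nat.Coprime a (r + 3) := by
  have h6 : Nat.Coprime a 6 := by
    have : Nat.Coprime a (2 * 3) := Nat.Coprime.mul_right h2 h3
    simpa using this
  have h1 : Nat.gcd a (r + 3) ∣ 6 := by
    have e1 : Nat.gcd a (r + 3) ∣ r - 3 := (Nat.gcd_dvd_left _ _).trans h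
    have e2 : Nat.gcd a (r + 3) ∣ r + 3 := Nat.gcd_dvd_right _ _
    have e3 := Nat.dvd_sub e2 e1
    have e4 : r + 3 - (r - 3) = 6 := by omega
    rwa [e4] at e3
  exact Nat.eq_one_of_dvd_coprimes h6 (Nat.gcd_dvd_left _ _) h1

lemma sqf_dvd {n k : ℕ} (hn : Squarefree n) (h : ∀ p : ℕ, p.Prime → p ∣ n → p ∣ k) : n ∣ k := by
  rw [← Nat.prod_primeFactors_of_squarefree hn]
  exact Finset.prod_primes_dvd k (fun p hp => (Nat.prime_of_mem_primeFactors hp).prime)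
    (fun p hp => h p (Nat.prime_of_mem_primeFactors hp) (Nat.dvd_of_mem_primeFactors hp))

lemma sq_sub (r : ℕ) : r ^ 2 - 9 = (r + 3) * (r - 3) := by
  have := Nat.sq_sub_sq r 3
  simpa using this

lemma card_A {g m A B : ℕ} (hg : Squarefree g) (hg3 : Nat.Coprime g 3) (hA : 3 ≤ A) :
    ((Finset.Ioc A B).filter (fun r => m ∣ r ∧ g ∣ r ^ 2 - 9)).card =
      ∑ c ∈ od g, (Ac g m A B c).card := by
  classical
  have hg0 : g ≠ 0 := hg.ne_zero
  obtain ⟨o1, o2⟩ := odd_part hg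
  set g2 := Nat.gcd g 2 with hg2
  set go := g / g2 with hgo
  have ego : g2 * go = g := Nat.mul_div_cancel' (Nat.gcd_dvd_left g 2)
  have hgog : go ∣ g := Dvd.intro_left _ ego
  rw [Finset.card_eq_sum_card_fiberwise (f := fun r => Nat.gcd go (r + 3)) (t := od g)]
  · refine Finset.sum_congr rfl fun c hc => ?_
    obtain ⟨hc1, hc2⟩ := Finset.mem_filter.mp hc
    have hcg : c ∣ g := Nat.dvd_of_mem_divisors hc1
    have ecg : c * (g / c) = g := Nat.mul_div_cancel' hcg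
    congr 1
    unfold Ac
    rw [Finset.filter_filter]
    refine Finset.filter_congr fun r hr => ?_
    obtain ⟨hr1, hr2⟩ := Finset.mem_Ioc.mp hr
    have hr3 : 3 ≤ r := by omega
    have hcgo : c ∣ go := by
      have h1 : c ∣ g2 * go := by rw [ego]; exact hcg
      have h2 : Nat.Coprime c g2 := Nat.Coprime.coprime_dvd_right (Nat.gcd_dvd_right g 2) hc2
      exact h2.dvd_of_dvd_mul_left h1
    constructor
    · rintro ⟨⟨h1, h2⟩, h3⟩
      refine ⟨h1, ?_, ?_⟩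
      · -- g / c is coprime to r + 3 up to the factor two
        rw [sq_sub] at h2
        have h4 : c ∣ r + 3 := by rw [← h3]; exact Nat.gcd_dvd_right _ _
        -- squarefree: check primes
        have hsq : Squarefree (g / c) := hg.squarefree_of_dvd (Nat.div_dvd_of_dvd hcg)
        refine sqf_dvd hsq ?_
        intro p hp hpd
        have hpg : p ∣ g := hpd.trans (Nat.div_dvd_of_dvd hcg)
        have hp1 : p ∣ (r + 3) * (r - 3) := hpg.trans h2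
        rcases (hp.dvd_mul).mp hp1 with h5 | h5
        swap
        · exact h5
        by_cases hp2 : p = 2
        · subst hp2
          omega
        · exfalso
          have hpgo : p ∣ go := by
            have h6 : p ∣ g2 * go := by rw [ego]; exact hpg
            rcases (hp.dvd_mul).mp h6 with h7 | h7
            · exfalso
              have h8 : p ∣ 2 := h7.trans (Nat.gcd_dvd_right g 2)
              exact hp2 ((Nat.prime_dvd_prime_iff_eq hp Nat.prime_two).mp h8)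
            · exact h7
          have hpc : p ∣ c := by rw [← h3]; exact Nat.dvd_gcd hpgo h5
          have hcop : Nat.Coprime c (g / c) := by
            have h9 : Squarefree (c * (g / c)) := by rw [ecg]; exact hg
            exact (Nat.squarefree_mul_iff.mp h9).1
          have h10 := Nat.dvd_gcd hpc hpd
          rw [hcop] at h10
          exact hp.one_lt.ne' (Nat.dvd_one.mp h10)
      · rw [← h3]; exact Nat.gcd_dvd_right _ _
    · rintro ⟨h1, h2, h3⟩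
      refine ⟨⟨h1, ?_⟩, ?_⟩
      · rw [sq_sub, ← ecg]
        exact Nat.mul_dvd_mul h3 h2
      · -- gcd go (r + 3) = c
        have ego2 : c * (go / c) = go := Nat.mul_div_cancel' hcgo
        have h4 : go / c ∣ g / c := Nat.div_dvd_div hcgo hgog
        have h5 : Nat.Coprime (go / c) (r + 3) := by
          refine six_cop (Nat.Coprime.coprime_dvd_left (Nat.div_dvd_of_dvd hcgo) o2) ?_ hr3 (h4.trans h2)
          exact Nat.Coprime.coprime_dvd_left ((Nat.div_dvd_of_dvd hcgo).trans hgog) hg3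
        show Nat.gcd go (r + 3) = c
        rw [← ego2, Nat.Coprime.gcd_mul_right_cancel c h5]
        exact Nat.gcd_eq_left h3
  · intro r hr
    have hr0 := Finset.mem_filter.mp (Finset.mem_coe.mp hr)
    refine Finset.mem_coe.mpr (Finset.mem_filter.mpr ⟨Nat.mem_divisors.mpr ⟨?_, hg0⟩, ?_⟩)
    · exact (Nat.gcd_dvd_left _ _).trans hgog
    · exact Nat.Coprime.coprime_dvd_left (Nat.gcd_dvd_left _ _) o2

lemma card_Ac {g m A B c : ℕ} (hg : Squarefree g) (hg3 : Nat.Coprime g 3) (hm : m ∣ 3) (hA : 3 ≤ A)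
    (hAB : A ≤ B) (hc : c ∈ od g) :
    |((Ac g m A B c).card : ℝ) - ((B - A : ℕ) : ℝ) / (m * g : ℕ)| ≤ 1 := by
  obtain ⟨hc1, hc2⟩ := Finset.mem_filter.mp hc
  have hcg : c ∣ g := Nat.dvd_of_mem_divisors hc1
  have ecg : c * (g / c) = g := Nat.mul_div_cancel' hcg
  have hg0 : 0 < g := Nat.pos_of_ne_zero hg.ne_zero
  have hm0 : 0 < m := Nat.pos_of_dvd_of_pos hm (by norm_num)
  have hcop : Nat.Coprime c (g / c) := by
    have h9 : Squarefree (c * (g / c)) := by rw [ecg]; exact hg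
    exact (Nat.squarefree_mul_iff.mp h9).1
  have hmg : Nat.Coprime m g := (Nat.Coprime.coprime_dvd_right hm hg3).symm
  obtain ⟨x, hx1, hx2⟩ := Nat.chineseRemainder hcop (3 * c - 3) 3
  obtain ⟨z, hz1, hz2⟩ := Nat.chineseRemainder hmg 0 x
  have hc0 : 0 < c := Nat.pos_of_mem_divisors hc1
  have hset : Ac g m A B c =
      (Finset.Ico (A + 1) (A + 1 + (B - A))).filter (fun r => r ≡ z [MOD m * g]) := by
    unfold Ac
    have h0 : Finset.Ioc A B = Finset.Ico (A + 1) (A + 1 + (B - A)) := by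
      ext q; simp only [Finset.mem_Ioc, Finset.mem_Ico]; omega
    rw [h0]
    refine Finset.filter_congr fun r hr => ?_
    obtain ⟨h4, h5⟩ := Finset.mem_Ico.mp hr
    have hr3 : 3 ≤ r := by omega
    have e1 : g / c ∣ r - 3 ↔ r ≡ x [MOD g / c] := by
      rw [← Nat.modEq_iff_dvd' hr3]
      exact ⟨fun h => (hx2.trans h).symm, fun h => (h.trans hx2).symm⟩
    have e2 : c ∣ r + 3 ↔ r ≡ x [MOD c] := by
      have e3 : 3 * c - 3 + 3 ≡ 0 [MOD c] := by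
        rw [Nat.sub_add_cancel (by omega)]
        exact Nat.modEq_zero_iff_dvd.mpr (Dvd.intro_left _ rfl)
      constructor
      · intro h
        have e4 : r + 3 ≡ 3 * c - 3 + 3 [MOD c] := (Nat.modEq_zero_iff_dvd.mpr h).trans e3.symm
        exact (Nat.ModEq.add_right_cancel' 3 e4).trans hx1.symm
      · intro h
        have e4 : r + 3 ≡ 3 * c - 3 + 3 [MOD c] := (h.trans hx1).add_right 3
        exact Nat.modEq_zero_iff_dvd.mp (e4.trans e3)
    rw [e1, e2]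
    constructor
    · rintro ⟨h6, h7, h8⟩
      have h9 : r ≡ x [MOD g] := by
        have := (Nat.modEq_and_modEq_iff_modEq_mul hcop).mp ⟨h8, h7⟩
        rwa [ecg] at this
      exact (Nat.modEq_and_modEq_iff_modEq_mul hmg).mp
        ⟨(Nat.modEq_zero_iff_dvd.mpr h6).trans hz1.symm, h9.trans hz2.symm⟩
    · intro h6
      have h7 := (Nat.modEq_and_modEq_iff_modEq_mul hmg).mpr h6
      have h8 : r ≡ x [MOD g] := h7.2.trans hz2
      exact ⟨Nat.modEq_zero_iff_dvd.mp (h7.1.trans hz1), h8.of_dvd (Nat.div_dvd_of_dvd hcg),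
        h8.of_dvd hcg⟩
  rw [hset]
  exact Pool.Agent.Lib.Sieve.abs_card_modEq_sub_le (A + 1) (B - A) (Nat.mul_pos hm0 hg0) z


/-! ### the number of pairs -/

lemma card_od_le {g : ℕ} (hg : 0 < g) : (od g).card ≤ g := by
  refine (Finset.card_filter_le _ _).trans ?_
  exact Nat.card_divisors_le_self g

/-- number of pairs -/
noncomputable def NN (S Q d e : ℕ) : ℝ := ∑ r ∈ Finset.Ioc (S / 2) S, (cq Q d e r : ℝ)

lemma NN_est {S Q d e : ℕ} (hd : Squarefree d) (he : Squarefree e)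
    (h : 9 * (Q + 1) < (S / 2 + 1) ^ 2) :
    |NN S Q d e - ((od (Nat.gcd (d1 d) e)).card : ℝ) *
      (((S - S / 2 : ℕ) : ℝ) * Q * (1 / (d:ℝ)) * (1 / (e:ℝ)))| ≤ ((S - S / 2 : ℕ) : ℝ) + Q := by
  have hd0 : 0 < d := Nat.pos_of_ne_zero hd.ne_zero
  have he0 : 0 < e := Nat.pos_of_ne_zero he.ne_zero
  have hd10 : 0 < d1 d := Nat.pos_of_ne_zero (d1_sqf hd).ne_zero
  set m := Nat.gcd d 3 with hm
  set g := Nat.gcd (d1 d) e with hg
  set L := Nat.lcm (d1 d) e with hL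
  set R := S - S / 2 with hR
  have hl : 0 < L := Nat.lcm_pos hd10 he0
  have hg0 : 0 < g := Nat.gcd_pos_of_pos_left e hd10
  have hm0 : 0 < m := Nat.gcd_pos_of_pos_left 3 hd0
  have hgsq : Squarefree g := (d1_sqf hd).squarefree_of_dvd (Nat.gcd_dvd_left _ _)
  have hg3 : Nat.Coprime g 3 := Nat.Coprime.coprime_dvd_left (Nat.gcd_dvd_left _ _) (d1_three hd)
  have hlR : (0:ℝ) < (L:ℝ) := by exact_mod_cast hl
  have hS3 : 3 ≤ S / 2 := by
    by_contra h3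
    have h4 : S / 2 + 1 ≤ 3 := by omega
    have h5 : (S / 2 + 1) ^ 2 ≤ 3 ^ 2 := Nat.pow_le_pow_left h4 2
    omega
  have hrlt : ∀ r ∈ Finset.Ioc (S / 2) S, 9 * (Q + 1) < r ^ 2 := by
    intro r hr
    have hr1 : S / 2 + 1 ≤ r := (Finset.mem_Ioc.mp hr).1
    exact lt_of_lt_of_le h (Nat.pow_le_pow_left hr1 2)
  set A := (Finset.Ioc (S / 2) S).filter (fun r => m ∣ r ∧ g ∣ r ^ 2 - 9) with hA
  have h1 : NN S Q d e = ∑ r ∈ A, (cq Q d e r : ℝ) := by
    unfold NN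
    rw [hA, Finset.sum_filter]
    refine Finset.sum_congr rfl fun r hr => ?_
    split_ifs with h2
    · rfl
    · rw [cq_zero hd (hrlt r hr) h2, Nat.cast_zero]
  have hAR : (A.card : ℝ) ≤ R := by
    have : A.card ≤ R := (Finset.card_filter_le _ _).trans (le_of_eq (Nat.card_Ioc _ _))
    exact_mod_cast this
  have h2 : |NN S Q d e - A.card * ((Q:ℝ) / L)| ≤ R := by
    have e1 : (A.card : ℝ) * ((Q:ℝ) / L) = ∑ _r ∈ A, ((Q:ℝ) / L) := by
      rw [Finset.sum_const, nsmul_eq_mul]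
    rw [h1, e1, ← Finset.sum_sub_distrib]
    refine (Finset.abs_sum_le_sum_abs _ _).trans ?_
    refine le_trans (Finset.sum_le_sum (g := fun _ => (1:ℝ)) fun r hr => ?_) ?_
    · obtain ⟨h3, h4, h5⟩ := Finset.mem_filter.mp hr
      exact cq_est hd he0 (hrlt r h3) h4 h5
    · rw [Finset.sum_const, nsmul_eq_mul, mul_one]
      exact hAR
  have h3 : |(A.card : ℝ) - ((od g).card : ℝ) * ((R:ℝ) / (m * g : ℕ))| ≤ ((od g).card : ℝ) := by
    have e1 : (A.card : ℝ) = ∑ c ∈ od g, ((Ac g m (S / 2) S c).card : ℝ) := by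
      rw [hA, card_A hgsq hg3 hS3]
      push_cast
      rfl
    have e2 : ((od g).card : ℝ) * ((R:ℝ) / (m * g : ℕ)) = ∑ _c ∈ od g, ((R:ℝ) / (m * g : ℕ)) := by
      rw [Finset.sum_const, nsmul_eq_mul]
    rw [e1, e2, ← Finset.sum_sub_distrib]
    refine (Finset.abs_sum_le_sum_abs _ _).trans ?_
    refine le_trans (Finset.sum_le_sum (g := fun _ => (1:ℝ)) fun c hc => ?_) ?_
    · exact card_Ac hgsq hg3 (Nat.gcd_dvd_right d 3) hS3 (Nat.div_le_self S 2) hc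
    · rw [Finset.sum_const, nsmul_eq_mul, mul_one]
  have h4 : |(A.card : ℝ) * ((Q:ℝ) / L) - ((od g).card : ℝ) * ((R:ℝ) / (m * g : ℕ)) * ((Q:ℝ) / L)| ≤ Q := by
    rw [← sub_mul, abs_mul, abs_of_nonneg (show (0:ℝ) ≤ (Q:ℝ) / L by positivity)]
    have h5 : ((od g).card : ℝ) ≤ L := by
      have h6 : (od g).card ≤ L := (card_od_le hg0).trans (Nat.le_of_dvd hl
        ((Nat.gcd_dvd_left _ _).trans (Nat.dvd_lcm_left _ _)))
      exact_mod_cast h6
    calc |(A.card : ℝ) - ((od g).card : ℝ) * ((R:ℝ) / (m * g : ℕ))| * ((Q:ℝ) / L)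
        ≤ L * ((Q:ℝ) / L) := mul_le_mul_of_nonneg_right (h3.trans h5) (by positivity)
      _ = Q := by field_simp
  have h5 : ((od g).card : ℝ) * ((R:ℝ) / (m * g : ℕ)) * ((Q:ℝ) / L) =
      ((od g).card : ℝ) * ((R:ℝ) * Q * (1 / (d:ℝ)) * (1 / (e:ℝ))) := by
    have e1 : (m * g) * L = d * e := by
      calc (m * g) * L = m * (g * L) := by ring
        _ = m * (d1 d * e) := by rw [hg, hL, Nat.gcd_mul_lcm]
        _ = (m * d1 d) * e := by ring
        _ = d * e := by rw [hm, d1_mul]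
    have e2 : ((m * g : ℕ) : ℝ) * (L:ℝ) = (d:ℝ) * e := by exact_mod_cast e1
    have hmgR : (0:ℝ) < ((m * g : ℕ) : ℝ) := by exact_mod_cast Nat.mul_pos hm0 hg0
    have hdR : (0:ℝ) < d := by exact_mod_cast hd0
    have heR : (0:ℝ) < e := by exact_mod_cast he0
    have e3 : (R:ℝ) / (m * g : ℕ) * ((Q:ℝ) / L) = (R:ℝ) * Q / (((m * g : ℕ) : ℝ) * (L:ℝ)) := by
      field_simp
    rw [mul_assoc, e3, e2]
    field_simp
  rw [h5] at h4
  have h6 : NN S Q d e - ((od g).card : ℝ) * ((R:ℝ) * Q * (1 / (d:ℝ)) * (1 / (e:ℝ))) =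
      (NN S Q d e - A.card * ((Q:ℝ) / L)) +
      ((A.card : ℝ) * ((Q:ℝ) / L) - ((od g).card : ℝ) * ((R:ℝ) * Q * (1 / (d:ℝ)) * (1 / (e:ℝ)))) := by
    ring
  rw [h6]
  exact (abs_add_le _ _).trans (add_le_add h2 h4)

lemma card_od_eq {D d e : ℕ} (hd : Squarefree d) (he : 0 < e) (hdD : d ≤ D) :
    ((od (Nat.gcd (d1 d) e)).card : ℝ) =
      ∑ c ∈ (Finset.Ioc 0 D).filter (fun c => Nat.Coprime c 6),
        (if c ∣ d then 1 else 0) * (if c ∣ e then 1 else 0) := by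
  have hd10 : 0 < d1 d := Nat.pos_of_ne_zero (d1_sqf hd).ne_zero
  have hd0 : 0 < d := Nat.pos_of_ne_zero hd.ne_zero
  have hg0 : 0 < Nat.gcd (d1 d) e := Nat.gcd_pos_of_pos_left e hd10
  have h1 : ∀ c : ℕ, ((if c ∣ d then (1:ℝ) else 0) * (if c ∣ e then 1 else 0)) =
      if (c ∣ d ∧ c ∣ e) then 1 else 0 := by
    intro c
    by_cases h1 : c ∣ d <;> by_cases h2 : c ∣ e <;> simp [h1, h2]
  simp_rw [h1]
  rw [← Finset.sum_filter, Finset.sum_const, nsmul_eq_mul, mul_one]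
  congr 2
  ext c
  simp only [od, Finset.mem_filter, Nat.mem_divisors, Finset.mem_Ioc]
  constructor
  · rintro ⟨⟨h2, _⟩, h3⟩
    have h4 : c ∣ d1 d := h2.trans (Nat.gcd_dvd_left _ _)
    have h5 : c ∣ d := h4.trans (Dvd.intro_left _ (d1_mul d))
    have h6 : c ∣ e := h2.trans (Nat.gcd_dvd_right _ _)
    have h7 : Nat.Coprime c 3 := Nat.Coprime.coprime_dvd_left h4 (d1_three hd)
    have h8 : Nat.Coprime c (2 * 3) := Nat.Coprime.mul_right h3 h7
    exact ⟨⟨⟨Nat.pos_of_dvd_of_pos h5 hd0, (Nat.le_of_dvd hd0 h5).trans hdD⟩, h8⟩, h5, h6⟩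
  · rintro ⟨⟨⟨h2, h3⟩, h4⟩, h5, h6⟩
    have h7 : Nat.Coprime c 2 := Nat.Coprime.coprime_dvd_right (by norm_num) h4
    have h8 : Nat.Coprime c 3 := Nat.Coprime.coprime_dvd_right (by norm_num) h4
    have h9 : c ∣ Nat.gcd d 3 * d1 d := by rw [d1_mul]; exact h5
    have h10 : c ∣ d1 d := (Nat.Coprime.coprime_dvd_right (Nat.gcd_dvd_right d 3) h8).dvd_of_dvd_mul_left h9
    exact ⟨⟨Nat.dvd_gcd h10 h6, hg0.ne'⟩, h7⟩

lemma BB_sh_eq (S Q D : ℕ) (h : 9 * (Q + 1) < (S / 2 + 1) ^ 2) : BB S Q (sh D) (sh D) =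
    ∑ d ∈ Finset.Ioc 0 D, ∑ e ∈ Finset.Ioc 0 D, aa d * aa e * NN S Q d e := by
  have h1 : ∀ r ∈ Finset.Ioc (S / 2) S,
      ∑ q ∈ Finset.Ioc 0 Q, sh D (r ^ 2 - 9 * (q + 1)) * sh D q =
      ∑ d ∈ Finset.Ioc 0 D, ∑ e ∈ Finset.Ioc 0 D, aa d * aa e * (cq Q d e r : ℝ) := by
    intro r hr
    have hr1 : S / 2 + 1 ≤ r := (Finset.mem_Ioc.mp hr).1
    have hr2 : 9 * (Q + 1) < r ^ 2 := lt_of_lt_of_le h (Nat.pow_le_pow_left hr1 2)
    have h2 : ∀ q ∈ Finset.Ioc 0 Q, sh D (r ^ 2 - 9 * (q + 1)) * sh D q =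
        ∑ d ∈ Finset.Ioc 0 D, ∑ e ∈ Finset.Ioc 0 D,
          (if e ∣ q ∧ d ∣ r ^ 2 - 9 * (q + 1) then aa d * aa e else 0) := by
      intro q hq
      obtain ⟨h3, h4⟩ := Finset.mem_Ioc.mp hq
      rw [sh_eq (show 1 ≤ r ^ 2 - 9 * (q + 1) by omega), sh_eq (show 1 ≤ q by omega), neg_mul_neg,
        Finset.sum_mul_sum]
      refine Finset.sum_congr rfl fun d _ => Finset.sum_congr rfl fun e _ => ?_
      by_cases h5 : e ∣ q <;> by_cases h6 : d ∣ r ^ 2 - 9 * (q + 1) <;> simp [h5, h6]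
    rw [Finset.sum_congr rfl h2, Finset.sum_comm]
    refine Finset.sum_congr rfl fun d _ => ?_
    rw [Finset.sum_comm]
    refine Finset.sum_congr rfl fun e _ => ?_
    rw [← Finset.sum_filter, Finset.sum_const, nsmul_eq_mul, mul_comm]
    rfl
  unfold BB
  rw [Finset.sum_congr rfl h1, Finset.sum_comm]
  refine Finset.sum_congr rfl fun d _ => ?_
  rw [Finset.sum_comm]
  refine Finset.sum_congr rfl fun e _ => ?_
  rw [← Finset.mul_sum]
  rfl

/-- `V_c` -/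
noncomputable def Vc (D c : ℕ) : ℝ := ∑ d ∈ Finset.Ioc 0 D, (if c ∣ d then 1 else 0) * (aa d * (1 / (d:ℝ)))

lemma Vc_one (D : ℕ) : Vc D 1 = VV D := by
  unfold Vc VV
  refine Finset.sum_congr rfl fun d _ => ?_
  rw [if_pos (one_dvd d)]
  ring

theorem BB_sh (S Q D : ℕ) (h : 9 * (Q + 1) < (S / 2 + 1) ^ 2) :
    ((S - S / 2 : ℕ) : ℝ) * Q * VV D ^ 2 - 4 * (D:ℝ) ^ 3 * ((S:ℝ) + Q) ≤ BB S Q (sh D) (sh D) := by
  set R := S - S / 2 with hR
  have hRS : (R:ℝ) ≤ S := by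
    have : R ≤ S := Nat.sub_le _ _
    exact_mod_cast this
  set T := (Finset.Ioc 0 D).filter (fun c => Nat.Coprime c 6) with hT
  -- main term
  have h1 : ∑ d ∈ Finset.Ioc 0 D, ∑ e ∈ Finset.Ioc 0 D, aa d * aa e *
      ((∑ c ∈ T, (if c ∣ d then (1:ℝ) else 0) * (if c ∣ e then 1 else 0)) *
        ((R:ℝ) * Q * (1 / (d:ℝ)) * (1 / (e:ℝ)))) = (R:ℝ) * Q * ∑ c ∈ T, Vc D c ^ 2 := by
    have e1 : ∀ c ∈ T, Vc D c ^ 2 = ∑ d ∈ Finset.Ioc 0 D, ∑ e ∈ Finset.Ioc 0 D,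
        ((if c ∣ d then (1:ℝ) else 0) * (aa d * (1 / (d:ℝ)))) *
        ((if c ∣ e then (1:ℝ) else 0) * (aa e * (1 / (e:ℝ)))) := by
      intro c _
      unfold Vc
      rw [sq, Finset.sum_mul_sum]
    rw [Finset.sum_congr rfl e1, Finset.mul_sum]
    simp_rw [Finset.sum_mul, Finset.mul_sum]
    rw [Finset.sum_comm]
    conv_rhs => rw [Finset.sum_comm]
    rw [Finset.sum_comm]
    refine Finset.sum_congr rfl fun d _ => ?_
    rw [Finset.sum_comm]
    refine Finset.sum_congr rfl fun c _ => ?_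
    refine Finset.sum_congr rfl fun e _ => ?_
    ring
  have h2 : (R:ℝ) * Q * VV D ^ 2 ≤ (R:ℝ) * Q * ∑ c ∈ T, Vc D c ^ 2 := by
    refine mul_le_mul_of_nonneg_left ?_ (by positivity)
    rcases Nat.eq_zero_or_pos D with hD | hD
    · subst hD
      have : VV 0 = 0 := by unfold VV; simp
      rw [this]
      simp only [ne_eq, OfNat.ofNat_ne_zero, not_false_eq_true, zero_pow]
      exact Finset.sum_nonneg fun _ _ => sq_nonneg _
    · rw [← Vc_one]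
      exact Finset.single_le_sum (f := fun c => Vc D c ^ 2) (fun _ _ => sq_nonneg _)
        (Finset.mem_filter.mpr ⟨Finset.mem_Ioc.mpr ⟨one_pos, hD⟩, Nat.coprime_one_left 6⟩)
  have h3 : |BB S Q (sh D) (sh D) - (R:ℝ) * Q * ∑ c ∈ T, Vc D c ^ 2| ≤ 4 * (D:ℝ) ^ 3 * ((S:ℝ) + Q) := by
    rw [BB_sh_eq S Q D h, ← h1, ← Finset.sum_sub_distrib]
    have h4 : ∀ d ∈ Finset.Ioc 0 D, ∀ e ∈ Finset.Ioc 0 D,
        |aa d * aa e * NN S Q d e - aa d * aa e *
          ((∑ c ∈ T, (if c ∣ d then (1:ℝ) else 0) * (if c ∣ e then 1 else 0)) *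
            ((R:ℝ) * Q * (1 / (d:ℝ)) * (1 / (e:ℝ))))| ≤ |aa d| * |aa e| * ((S:ℝ) + Q) := by
      intro d hd' e _
      rw [← mul_sub, abs_mul, abs_mul]
      by_cases hd : Squarefree d
      · by_cases he : Squarefree e
        · refine mul_le_mul_of_nonneg_left ?_ (by positivity)
          rw [hT, ← card_od_eq hd (Nat.pos_of_ne_zero he.ne_zero) (Finset.mem_Ioc.mp hd').2]
          refine (NN_est hd he h).trans ?_
          linarith
        · rw [aa_zero he]; simp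
      · rw [aa_zero hd]; simp
    have h5 : |∑ d ∈ Finset.Ioc 0 D, (∑ e ∈ Finset.Ioc 0 D, aa d * aa e * NN S Q d e -
        ∑ e ∈ Finset.Ioc 0 D, aa d * aa e *
          ((∑ c ∈ T, (if c ∣ d then (1:ℝ) else 0) * (if c ∣ e then 1 else 0)) *
            ((R:ℝ) * Q * (1 / (d:ℝ)) * (1 / (e:ℝ)))))| ≤
        ∑ d ∈ Finset.Ioc 0 D, ∑ e ∈ Finset.Ioc 0 D, |aa d| * |aa e| * ((S:ℝ) + Q) := by
      refine (Finset.abs_sum_le_sum_abs _ _).trans (Finset.sum_le_sum fun d hd => ?_)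
      rw [← Finset.sum_sub_distrib]
      exact (Finset.abs_sum_le_sum_abs _ _).trans (Finset.sum_le_sum fun e he => h4 d hd e he)
    refine h5.trans ?_
    have h6 : ∑ d ∈ Finset.Ioc 0 D, ∑ e ∈ Finset.Ioc 0 D, |aa d| * |aa e| * ((S:ℝ) + Q) =
        (∑ d ∈ Finset.Ioc 0 D, |aa d|) ^ 2 * ((S:ℝ) + Q) := by
      rw [sq (∑ d ∈ Finset.Ioc 0 D, |aa d|), Finset.sum_mul_sum, Finset.sum_mul]
      refine Finset.sum_congr rfl fun d _ => ?_
      rw [Finset.sum_mul]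
    rw [h6]
    have h7 := sum_aa_le D
    have h8 : 0 ≤ ∑ d ∈ Finset.Ioc 0 D, |aa d| := Finset.sum_nonneg fun _ _ => abs_nonneg _
    have h9 := pow_le_pow_left₀ h8 h7 2
    have h10 : ((D:ℝ) * (2 * Real.sqrt D)) ^ 2 = 4 * D ^ 3 := by
      rw [mul_pow, mul_pow, Real.sq_sqrt (Nat.cast_nonneg D)]; ring
    rw [h10] at h9
    exact mul_le_mul_of_nonneg_right h9 (by positivity)
  rw [abs_le] at h3
  linarith [h3.1]

end Pool.Agent.SGP51
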