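import Pool.Agent.SGP51.Defs

/-!
# The cross terms
-/

set_option autoImplicit false

open Complex ArithmeticFunction

namespace Pool.Agent.SGP51

open Pool.Agent.ANT Pool.Agent.SqSig

lemma tr_zero {Q y : ℕ} (g : ℕ → ℝ) (h : ¬ (9 ∣ y ∧ 2 ≤ y / 9 ∧ y / 9 ≤ Q + 1)) : tr Q g y = 0 := by
  unfold tr
  rw [if_neg h]

lemma tr_val {Q q : ℕ} (g : ℕ → ℝ) (h1 : 1 ≤ q) (h2 : q ≤ Q) : tr Q g (9 * (q + 1)) = g q := by
  unfold tr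
  have e : 9 * (q + 1) / 9 = q + 1 := Nat.mul_div_cancel_left _ (by norm_num)
  rw [e, if_pos ⟨Dvd.intro _ rfl, by omega, by omega⟩, Nat.add_sub_cancel]

/-- sums over the support of `tr` -/
lemma sum_tr {M : Type*} [AddCommMonoid M] (Q X : ℕ) (F : ℕ → M)
    (hF : ∀ y, ¬ (9 ∣ y ∧ 2 ≤ y / 9 ∧ y / 9 ≤ Q + 1) → F y = 0) :
    ∑ y ∈ Finset.Ioc 0 X, F y = ∑ q ∈ Finset.Ioc 0 (min Q (X / 9 - 1)), F (9 * (q + 1)) := by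
  classical
  rw [← Finset.sum_filter_of_ne (p := fun y => 9 ∣ y ∧ 2 ≤ y / 9 ∧ y / 9 ≤ Q + 1)
    (fun y _ hy => by by_contra h; exact hy (hF y h))]
  refine Finset.sum_nbij' (fun y => y / 9 - 1) (fun q => 9 * (q + 1)) ?_ ?_ ?_ ?_ ?_
  · intro y hy
    obtain ⟨h1, h2, h3, h4⟩ := Finset.mem_filter.mp hy
    obtain ⟨h5, h6⟩ := Finset.mem_Ioc.mp h1
    have h7 : y / 9 ≤ X / 9 := Nat.div_le_div_right h6
    exact Finset.mem_Ioc.mpr ⟨by omega, by omega⟩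
  · intro q hq
    obtain ⟨h1, h2⟩ := Finset.mem_Ioc.mp hq
    have h3 : q ≤ Q := h2.trans (min_le_left _ _)
    have h4 : q ≤ X / 9 - 1 := h2.trans (min_le_right _ _)
    have e : 9 * (q + 1) / 9 = q + 1 := Nat.mul_div_cancel_left _ (by norm_num)
    refine Finset.mem_filter.mpr ⟨Finset.mem_Ioc.mpr ⟨by omega, ?_⟩, Dvd.intro _ rfl, ?_, ?_⟩
    · have := Nat.mul_div_le X 9
      omega
    · omega
    · omega
  · intro y hy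
    obtain ⟨h1, h2, h3, h4⟩ := Finset.mem_filter.mp hy
    have h5 := Nat.mul_div_cancel' h2
    show 9 * (y / 9 - 1 + 1) = y
    rw [Nat.sub_add_cancel (by omega)]
    exact h5
  · intro q _
    show 9 * (q + 1) / 9 - 1 = q
    rw [Nat.mul_div_cancel_left _ (by norm_num), Nat.add_sub_cancel]
  · intro y hy
    obtain ⟨h1, h2, h3, h4⟩ := Finset.mem_filter.mp hy
    have h5 := Nat.mul_div_cancel' h2
    show F y = F (9 * (y / 9 - 1 + 1))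
    rw [Nat.sub_add_cancel (by omega), h5]

theorem l2_tr (Q X : ℕ) (g : ℕ → ℝ) :
    ∑ n ∈ Finset.Ioc 0 X, tr Q g n ^ 2 ≤ ∑ n ∈ Finset.Ioc 0 X, g n ^ 2 := by
  rw [sum_tr Q X (fun n => tr Q g n ^ 2) (fun y hy => by rw [tr_zero g hy]; norm_num)]
  have h1 : ∀ q ∈ Finset.Ioc 0 (min Q (X / 9 - 1)), tr Q g (9 * (q + 1)) ^ 2 = g q ^ 2 := by
    intro q hq
    obtain ⟨h1, h2⟩ := Finset.mem_Ioc.mp hq
    rw [tr_val g h1 (h2.trans (min_le_left _ _))]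
  rw [Finset.sum_congr rfl h1]
  refine Finset.sum_le_sum_of_subset_of_nonneg ?_ (fun _ _ _ => sq_nonneg _)
  intro q hq
  obtain ⟨h1, h2⟩ := Finset.mem_Ioc.mp hq
  have h4 : q ≤ X / 9 - 1 := h2.trans (min_le_right _ _)
  have h5 : X / 9 ≤ X := Nat.div_le_self X 9
  exact Finset.mem_Ioc.mpr ⟨h1, by omega⟩

lemma Fs_tr (Q X : ℕ) (g : ℕ → ℝ) (α : ℝ) :
    ‖Fs X (tr Q g) α‖ = ‖Fs (min Q (X / 9 - 1)) g (9 * α)‖ := by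
  unfold Fs
  rw [sum_tr Q X (fun n => (tr Q g n : ℂ) * ee (n * α)) (fun y hy => by
    rw [tr_zero g hy]; simp)]
  have h1 : ∀ q ∈ Finset.Ioc 0 (min Q (X / 9 - 1)),
      (tr Q g (9 * (q + 1)) : ℂ) * ee (((9 * (q + 1) : ℕ) : ℝ) * α) =
      ee (9 * α) * ((g q : ℂ) * ee (q * (9 * α))) := by
    intro q hq
    obtain ⟨h1, h2⟩ := Finset.mem_Ioc.mp hq
    rw [tr_val g h1 (h2.trans (min_le_left _ _))]
    have e : ((9 * (q + 1) : ℕ) : ℝ) * α = 9 * α + q * (9 * α) := by push_cast; ring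
    rw [e, ee_add]
    ring
  rw [Finset.sum_congr rfl h1, ← Finset.mul_sum, norm_mul, norm_ee, one_mul]

lemma Q4_mono {S' S : ℕ} (h : S' ≤ S) : ((Q4 S').card : ℝ) ≤ (Q4 S).card := by
  have h1 : Finset.Ioc 0 S' ⊆ Finset.Ioc 0 S := Finset.Ioc_subset_Ioc_right h
  have h2 : Q4 S' ⊆ Q4 S := by
    unfold Q4
    exact Finset.filter_subset_filter _ (Finset.product_subset_product
      (Finset.product_subset_product h1 h1) (Finset.product_subset_product h1 h1))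
  exact_mod_cast Finset.card_le_card h2

/-- the common part -/
lemma cross_gen {C : ℝ} (hC : 0 < C) {S S' : ℕ} (hS : 1 ≤ S) (hS' : S' ≤ S) (f g : ℕ → ℝ)
    (hf : ∑ n ∈ Finset.Ioc 0 (S ^ 2), f n ^ 2 ≤ (S ^ 2 : ℕ) * LL (S ^ 2) ^ 5)
    (hg : ∑ n ∈ Finset.Ioc 0 (S ^ 2), g n ^ 2 ≤ 4 * ((S ^ 2 : ℕ) * LL (S ^ 2) ^ 5))
    (hK : ∀ α : ℝ, ‖Fs (S' ^ 2) g α‖ ≤ C * (S ^ 2 : ℕ) * LL (S ^ 2) ^ 2 / (LL (S ^ 2) / 8) ^ 12) :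
    (Bf S' f g) ^ 4 ≤ 132 * C ^ 2 * 8 ^ 24 * ((S:ℝ) ^ 3) ^ 4 / LL (S ^ 2) ^ 3 := by
  have hL := one_le_LL (S ^ 2)
  have hL0 : 0 < LL (S ^ 2) := by linarith
  have hX' : S' ^ 2 ≤ S ^ 2 := Nat.pow_le_pow_left hS' 2
  have hsub : Finset.Ioc 0 (S' ^ 2) ⊆ Finset.Ioc 0 (S ^ 2) := Finset.Ioc_subset_Ioc_right hX'
  have hf' : ∑ n ∈ Finset.Ioc 0 (S' ^ 2), f n ^ 2 ≤ (S ^ 2 : ℕ) * LL (S ^ 2) ^ 5 :=
    (Finset.sum_le_sum_of_subset_of_nonneg hsub (fun _ _ _ => sq_nonneg _)).trans hf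
  have hg' : ∑ n ∈ Finset.Ioc 0 (S' ^ 2), g n ^ 2 ≤ 4 * ((S ^ 2 : ℕ) * LL (S ^ 2) ^ 5) :=
    (Finset.sum_le_sum_of_subset_of_nonneg hsub (fun _ _ _ => sq_nonneg _)).trans hg
  have h5 := (Q4_mono hS').trans (Q4_le hS)
  set X := S ^ 2 with hX
  set K : ℝ := C * X * LL X ^ 2 / (LL X / 8) ^ 12 with hKdef
  have hK0 : 0 ≤ K := by positivity
  refine (Bf_bound S' f g K hK).trans ?_
  have h3 : (∑ n ∈ Finset.Ioc 0 (S' ^ 2), f n ^ 2) ^ 2 ≤ (X * LL X ^ 5) ^ 2 :=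
    pow_le_pow_left₀ (Finset.sum_nonneg fun _ _ => sq_nonneg _) hf' 2
  have h6 : (∑ n ∈ Finset.Ioc 0 (S' ^ 2), f n ^ 2) ^ 2 *
      (K ^ 2 * ∑ n ∈ Finset.Ioc 0 (S' ^ 2), g n ^ 2) * (Q4 S').card ≤
      (X * LL X ^ 5) ^ 2 * (K ^ 2 * (4 * (X * LL X ^ 5))) * (33 * (X * LL X ^ 2)) := by
    have h7 : 0 ≤ ∑ n ∈ Finset.Ioc 0 (S' ^ 2), g n ^ 2 := Finset.sum_nonneg fun _ _ => sq_nonneg _
    gcongr
  refine h6.trans (le_of_eq ?_)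
  have h8 : ((S:ℝ) ^ 3) ^ 4 = (X:ℝ) ^ 6 := by rw [hX]; push_cast; ring
  rw [h8, hKdef]
  field_simp
  ring

/-- the exponential sum of `er` over a shorter interval -/
lemma er_short : ∃ C : ℝ, 0 < C ∧ ∀ (S R : ℕ) (β : ℝ), 1 ≤ S → R ≤ S ^ 2 →
    ‖Fs R (er (Dc S)) β‖ ≤ C * (S ^ 2 : ℕ) * LL (S ^ 2) ^ 2 / (LL (S ^ 2) / 8) ^ 12 := by
  obtain ⟨C, hC, h⟩ := er_fourier 12 (by norm_num)
  refine ⟨C, hC, fun S R β hS hR => ?_⟩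
  have hL := one_le_LL (S ^ 2)
  have hL0 : 0 < LL (S ^ 2) := by linarith
  rcases Nat.eq_zero_or_pos R with h0 | hR1
  · rw [h0]
    unfold Fs
    rw [Finset.Ioc_self, Finset.sum_empty, norm_zero]
    positivity
  have hRR : (0:ℝ) < R := by exact_mod_cast hR1
  have hRX : (R:ℝ) ≤ (S ^ 2 : ℕ) := by exact_mod_cast hR
  have hlR : 0 ≤ Real.log R := Real.log_natCast_nonneg R
  have hden := den_ge hS
  refine (h (Dc S) R β (one_le_Dc hS) hR1).trans ?_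
  have h2 : (LL (S ^ 2) / 8) ^ 12 ≤ (2 * ((12:ℕ):ℝ) + Real.log (Dc S)) ^ 12 :=
    pow_le_pow_left₀ (by positivity) hden 12
  have h3 : 1 + Real.log R ≤ LL (S ^ 2) := by
    unfold LL
    have := Real.log_le_log hRR hRX
    linarith
  have h4 : C * R * (1 + Real.log R) ^ 2 ≤ C * (S ^ 2 : ℕ) * LL (S ^ 2) ^ 2 := by
    gcongr
  calc C * R * (1 + Real.log R) ^ 2 / (2 * ((12:ℕ):ℝ) + Real.log (Dc S)) ^ 12
      ≤ C * (S ^ 2 : ℕ) * LL (S ^ 2) ^ 2 / (2 * ((12:ℕ):ℝ) + Real.log (Dc S)) ^ 12 := by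
        refine div_le_div_of_nonneg_right h4 ?_
        exact le_trans (by positivity) h2
    _ ≤ _ := div_le_div_of_nonneg_left (by positivity) (by positivity) h2

theorem cross1 : ∃ C : ℝ, 0 < C ∧ ∀ (S S' : ℕ) (f : ℕ → ℝ), 1 ≤ S → S' ≤ S →
    ∑ n ∈ Finset.Ioc 0 (S ^ 2), f n ^ 2 ≤ (S ^ 2 : ℕ) * LL (S ^ 2) ^ 5 →
    (Bf S' f (er (Dc S))) ^ 4 ≤ C * ((S:ℝ) ^ 3) ^ 4 / LL (S ^ 2) ^ 3 := by
  obtain ⟨C, hC, h⟩ := er_short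
  refine ⟨132 * C ^ 2 * 8 ^ 24, by positivity, fun S S' f hS hS' hf => ?_⟩
  exact cross_gen hC hS hS' f _ hf (l2_er (Dc S) (S ^ 2))
    (fun α => h S (S' ^ 2) α hS (Nat.pow_le_pow_left hS' 2))

theorem cross2 : ∃ C : ℝ, 0 < C ∧ ∀ (S S' Q : ℕ) (f : ℕ → ℝ), 1 ≤ S → S' ≤ S →
    ∑ n ∈ Finset.Ioc 0 (S ^ 2), f n ^ 2 ≤ (S ^ 2 : ℕ) * LL (S ^ 2) ^ 5 →
    (Bf S' f (tr Q (er (Dc S)))) ^ 4 ≤ C * ((S:ℝ) ^ 3) ^ 4 / LL (S ^ 2) ^ 3 := by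
  obtain ⟨C, hC, h⟩ := er_short
  refine ⟨132 * C ^ 2 * 8 ^ 24, by positivity, fun S S' Q f hS hS' hf => ?_⟩
  refine cross_gen hC hS hS' f _ hf ((l2_tr Q (S ^ 2) _).trans (l2_er (Dc S) (S ^ 2))) ?_
  intro α
  rw [Fs_tr]
  refine h S _ (9 * α) hS ?_
  have h1 : S' ^ 2 ≤ S ^ 2 := Nat.pow_le_pow_left hS' 2
  have h2 : S' ^ 2 / 9 ≤ S' ^ 2 := Nat.div_le_self _ _
  have h3 : min Q (S' ^ 2 / 9 - 1) ≤ S' ^ 2 / 9 - 1 := min_le_right _ _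
  omega

end Pool.Agent.SGP51
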