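import Pool.Agent.SGP51.Defs

/-!
# The number of residue classes removed by a prime

The variables are `(m, a, b)`; with `T(a) = a (a + 1) / 2` the conditions modulo `p` are
`T(a) = m + 1`, `T(b) = m + 1`, `T(a) = 9 m + 1`, `T(b) = 9 m + 1`, written for
`(2 a + 1) ^ 2 = 8 T(a) + 1`.
-/

set_option autoImplicit false

open Finset

namespace Pool.Agent.SGP51

open Pool.Agent.SqSig

/-- the removal condition -/
def Bd (p : ℕ) (x : T3) : Prop :=
  (2 * (x.2.1 : ZMod p) + 1) ^ 2 = 8 * (x.1 : ZMod p) + 9 ∨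
  (2 * (x.2.2 : ZMod p) + 1) ^ 2 = 8 * (x.1 : ZMod p) + 9 ∨
  (2 * (x.2.1 : ZMod p) + 1) ^ 2 = 72 * (x.1 : ZMod p) + 9 ∨
  (2 * (x.2.2 : ZMod p) + 1) ^ 2 = 72 * (x.1 : ZMod p) + 9

lemma per_Bd : Per Bd := by
  intro p x y h1 h2 h3 h
  have e1 : (x.1 : ZMod p) = y.1 := (ZMod.natCast_eq_natCast_iff _ _ _).mpr h1
  have e2 : (x.2.1 : ZMod p) = y.2.1 := (ZMod.natCast_eq_natCast_iff _ _ _).mpr h2
  have e3 : (x.2.2 : ZMod p) = y.2.2 := (ZMod.natCast_eq_natCast_iff _ _ _).mpr h3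
  unfold Bd at h ⊢
  rw [e1, e2, e3] at h
  exact h

lemma tr_sq (a : ℕ) : 8 * Tr a + 1 = (2 * a + 1) ^ 2 := by
  have h : 2 * (a * (a + 1) / 2) = a * (a + 1) :=
    Nat.two_mul_div_two_of_even (Nat.even_mul_succ_self a)
  unfold Tr
  nlinarith

section prime

variable {p : ℕ} [hp : Fact p.Prime]

/-- the class removed by the first condition -/
def g8 (r : ZMod p) : ZMod p := ((2 * r + 1) ^ 2 - 9) / 8

/-- the class removed by the second condition -/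
def g72 (r : ZMod p) : ZMod p := ((2 * r + 1) ^ 2 - 9) / 72

lemma two_ne (h : 13 ≤ p) : (2 : ZMod p) ≠ 0 := by
  intro h1
  have h3 : ((2:ℕ) : ZMod p) = 0 := by exact_mod_cast h1
  rw [ZMod.natCast_eq_zero_iff] at h3
  have := Nat.le_of_dvd (by norm_num) h3
  omega

lemma three_ne (h : 13 ≤ p) : (3 : ZMod p) ≠ 0 := by
  intro h1
  have h3 : ((3:ℕ) : ZMod p) = 0 := by exact_mod_cast h1
  rw [ZMod.natCast_eq_zero_iff] at h3
  have := Nat.le_of_dvd (by norm_num) h3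
  omega

lemma eight_ne (h : 13 ≤ p) : (8 : ZMod p) ≠ 0 := by
  have h2 := two_ne h
  have : (8 : ZMod p) = 2 * 2 * 2 := by norm_num
  rw [this]
  exact mul_ne_zero (mul_ne_zero h2 h2) h2

lemma seventytwo_ne (h : 13 ≤ p) : (72 : ZMod p) ≠ 0 := by
  have h2 := eight_ne h
  have h3 := three_ne h
  have : (72 : ZMod p) = 8 * (3 * 3) := by norm_num
  rw [this]
  exact mul_ne_zero h2 (mul_ne_zero h3 h3)

lemma tr_iff (h : 13 ≤ p) (a : ℕ) (m : ZMod p) :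
    ((Tr a : ℕ) : ZMod p) = m ↔ (2 * (a : ZMod p) + 1) ^ 2 = 8 * m + 1 := by
  have h1 : (8 : ZMod p) * ((Tr a : ℕ) : ZMod p) + 1 = (2 * (a : ZMod p) + 1) ^ 2 := by
    exact_mod_cast congrArg (Nat.cast : ℕ → ZMod p) (tr_sq a)
  rw [← h1]
  constructor
  · rintro rfl
    rfl
  · intro h2
    exact mul_left_cancel₀ (eight_ne h) (add_right_cancel h2)

lemma eq_g8 (h : 13 ≤ p) (m r : ZMod p) : m = g8 r ↔ (2 * r + 1) ^ 2 = 8 * m + 9 := by
  unfold g8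
  rw [eq_div_iff (eight_ne h)]
  constructor
  · intro h1
    linear_combination -h1
  · intro h1
    linear_combination -h1

lemma eq_g72 (h : 13 ≤ p) (m r : ZMod p) : m = g72 r ↔ (2 * r + 1) ^ 2 = 72 * m + 9 := by
  unfold g72
  rw [eq_div_iff (seventytwo_ne h)]
  constructor
  · intro h1
    linear_combination -h1
  · intro h1
    linear_combination -h1

lemma lin_bij (h : 13 ≤ p) : Function.Bijective (fun r : ZMod p => 2 * r + 1) := by
  haveI : NeZero p := ⟨hp.out.ne_zero⟩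
  rw [Fintype.bijective_iff_injective_and_card]
  refine ⟨fun r s hrs => ?_, rfl⟩
  have h1 : (2 : ZMod p) * (r - s) = 0 := by
    have h2 : 2 * r + 1 = 2 * s + 1 := hrs
    linear_combination h2
  rcases mul_eq_zero.mp h1 with h2 | h2
  · exact absurd h2 (two_ne h)
  · exact sub_eq_zero.mp h2

lemma card_lin_le (h : 13 ≤ p) (c : ZMod p) : ∑ r : ZMod p, ind ((2 * r + 1) ^ 2 = c) ≤ 2 := by
  rw [(lin_bij h).sum_comp (fun r => ind (r ^ 2 = c))]
  exact card_sqrt_le c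

lemma card_GR_prime (h13 : 13 ≤ p) : (GR Bd p).card =
    ∑ x : ZMod p × ZMod p, ({g8 x.1, g8 x.2, g72 x.1, g72 x.2} : Finset (ZMod p)).card := by
  rw [← card_sigma]
  have hpp := hp.out
  haveI : NeZero p := ⟨hpp.ne_zero⟩
  refine Finset.card_nbij' (fun t => ⟨((t.2.1 : ZMod p), (t.2.2 : ZMod p)), (t.1 : ZMod p)⟩)
    (fun s => (s.2.val, s.1.1.val, s.1.2.val)) ?_ ?_ ?_ ?_
  · intro t ht
    rw [mem_coe, mem_GR] at ht
    have h := ht.2 p (by rw [hpp.primeFactors]; exact mem_singleton_self p)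
    rw [mem_coe, mem_sigma]
    refine ⟨mem_univ _, ?_⟩
    simp only [mem_insert, mem_singleton, eq_g8 h13, eq_g72 h13]
    exact h
  · rintro ⟨⟨r, s⟩, n⟩ h
    rw [mem_coe, mem_sigma] at h
    simp only [mem_insert, mem_singleton, eq_g8 h13, eq_g72 h13] at h
    rw [mem_coe, mem_GR]
    refine ⟨⟨ZMod.val_lt _, ZMod.val_lt _, ZMod.val_lt _⟩, ?_⟩
    intro q hq
    rw [hpp.primeFactors, mem_singleton] at hq
    subst hq
    unfold Bd
    simp only [ZMod.natCast_val, ZMod.cast_id', id_eq]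
    exact h.2
  · intro t ht
    rw [mem_coe, mem_GR] at ht
    obtain ⟨⟨h1, h2, h3⟩, -⟩ := ht
    simp only
    rw [ZMod.val_natCast_of_lt h1, ZMod.val_natCast_of_lt h2, ZMod.val_natCast_of_lt h3]
  · rintro ⟨⟨r, s⟩, n⟩ _
    simp only [ZMod.natCast_val, ZMod.cast_id', id_eq]

lemma card_GR_le (h13 : 13 ≤ p) : (GR Bd p).card ≤ 4 * p ^ 2 := by
  rw [card_GR_prime h13]
  calc ∑ x : ZMod p × ZMod p, ({g8 x.1, g8 x.2, g72 x.1, g72 x.2} : Finset (ZMod p)).card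
      ≤ ∑ x : ZMod p × ZMod p, 4 := Finset.sum_le_sum fun x _ => card_le_four
    _ = 4 * p ^ 2 := by
      rw [Finset.sum_const, card_univ, Fintype.card_prod, ZMod.card, smul_eq_mul]; ring

lemma card_GR_ge (h13 : 13 ≤ p) : 4 * p ^ 2 ≤ (GR Bd p).card + 12 * p := by
  have hpp := hp.out
  have h8 := eight_ne h13
  have h72 := seventytwo_ne h13
  rw [card_GR_prime h13]
  have a1 : ∀ r s : ZMod p, g8 r = g8 s → (2 * r + 1) ^ 2 = (2 * s + 1) ^ 2 := by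
    intro r s h
    have h1 := (eq_g8 h13 (g8 r) r).mp rfl
    have h2 := (eq_g8 h13 (g8 r) s).mp h
    rw [h1, h2]
  have a2 : ∀ r s : ZMod p, g72 r = g72 s → (2 * r + 1) ^ 2 = (2 * s + 1) ^ 2 := by
    intro r s h
    have h1 := (eq_g72 h13 (g72 r) r).mp rfl
    have h2 := (eq_g72 h13 (g72 r) s).mp h
    rw [h1, h2]
  have a3 : ∀ r s : ZMod p, g8 r = g72 s → (2 * s + 1) ^ 2 = 9 * (2 * r + 1) ^ 2 - 72 := by
    intro r s h
    have h1 := (eq_g8 h13 (g8 r) r).mp rfl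
    have h2 := (eq_g72 h13 (g8 r) s).mp h
    rw [h1, h2]
    ring
  have a4 : ∀ r s : ZMod p, g8 r = g72 s → (2 * r + 1) ^ 2 = ((2 * s + 1) ^ 2 + 72) / 9 := by
    intro r s h
    have h9 : (9 : ZMod p) ≠ 0 := by
      have h3 := three_ne h13
      have : (9 : ZMod p) = 3 * 3 := by norm_num
      rw [this]
      exact mul_ne_zero h3 h3
    rw [eq_div_iff h9]
    have := a3 r s h
    linear_combination -this
  have a5 : ∀ r : ZMod p, g8 r = g72 r → (2 * r + 1) ^ 2 = 9 := by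
    intro r h
    have h1 := a3 r r h
    have h2 : (8 : ZMod p) * ((2 * r + 1) ^ 2 - 9) = 0 := by linear_combination -h1
    rcases mul_eq_zero.mp h2 with h3 | h3
    · exact absurd h3 h8
    · exact sub_eq_zero.mp h3
  have e1 : ∑ x : ZMod p × ZMod p, ind (g8 x.1 = g8 x.2) ≤ 2 * p :=
    sum_prod_le (fun r s => ind (g8 r = g8 s)) 2 fun s =>
      (Finset.sum_le_sum fun r _ => ind_mono (a1 r s)).trans (card_lin_le h13 _)
  have e2 : ∑ x : ZMod p × ZMod p, ind (g8 x.1 = g72 x.1) ≤ 2 * p :=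
    sum_prod_le (fun r _ => ind (g8 r = g72 r)) 2 fun s =>
      (Finset.sum_le_sum fun r _ => ind_mono (a5 r)).trans (card_lin_le h13 _)
  have e3 : ∑ x : ZMod p × ZMod p, ind (g8 x.1 = g72 x.2) ≤ 2 * p :=
    sum_prod_le (fun r s => ind (g8 r = g72 s)) 2 fun s =>
      (Finset.sum_le_sum fun r _ => ind_mono (a4 r s)).trans (card_lin_le h13 _)
  have e4 : ∑ x : ZMod p × ZMod p, ind (g8 x.2 = g72 x.1) ≤ 2 * p :=
    sum_prod_le (fun r s => ind (g8 s = g72 r)) 2 fun s =>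
      (Finset.sum_le_sum fun r _ => ind_mono (a3 s r)).trans (card_lin_le h13 _)
  have e5 : ∑ x : ZMod p × ZMod p, ind (g8 x.2 = g72 x.2) ≤ 2 * p :=
    sum_prod_le' (fun _ s => ind (g8 s = g72 s)) 2 fun r =>
      (Finset.sum_le_sum fun r _ => ind_mono (a5 r)).trans (card_lin_le h13 _)
  have e6 : ∑ x : ZMod p × ZMod p, ind (g72 x.1 = g72 x.2) ≤ 2 * p :=
    sum_prod_le (fun r s => ind (g72 r = g72 s)) 2 fun s =>
      (Finset.sum_le_sum fun r _ => ind_mono (a2 r s)).trans (card_lin_le h13 _)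
  have h4 : ∑ x : ZMod p × ZMod p, 4 ≤ ∑ x : ZMod p × ZMod p,
      (({g8 x.1, g8 x.2, g72 x.1, g72 x.2} : Finset (ZMod p)).card +
      (ind (g8 x.1 = g8 x.2) + ind (g8 x.1 = g72 x.1) + ind (g8 x.1 = g72 x.2) +
        ind (g8 x.2 = g72 x.1) + ind (g8 x.2 = g72 x.2) + ind (g72 x.1 = g72 x.2))) :=
    Finset.sum_le_sum fun x _ => card_four _ _ _ _
  have h5 : ∑ x : ZMod p × ZMod p, 4 = 4 * p ^ 2 := by
    rw [Finset.sum_const, card_univ, Fintype.card_prod, ZMod.card, smul_eq_mul]; ring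
  rw [h5] at h4
  simp only [Finset.sum_add_distrib] at h4
  omega

end prime

lemma bd_iff {p : ℕ} (hp : p.Prime) (h13 : 13 ≤ p) (x : T3) :
    Bd p x ↔ ((Tr x.2.1 : ℕ) : ZMod p) = x.1 + 1 ∨ ((Tr x.2.2 : ℕ) : ZMod p) = x.1 + 1 ∨
      ((Tr x.2.1 : ℕ) : ZMod p) = 9 * x.1 + 1 ∨ ((Tr x.2.2 : ℕ) : ZMod p) = 9 * x.1 + 1 := by
  haveI : Fact p.Prime := ⟨hp⟩
  have e1 : (8 : ZMod p) * (x.1 + 1) + 1 = 8 * x.1 + 9 := by ring
  have e2 : (8 : ZMod p) * (9 * x.1 + 1) + 1 = 72 * x.1 + 9 := by ring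
  rw [tr_iff h13, tr_iff h13, tr_iff h13, tr_iff h13, e1, e2]
  rfl

/-- density -/
noncomputable def wd (p : ℕ) : ℝ := ((GR Bd p).card : ℝ) / (p:ℝ) ^ 3

lemma wd_le {p : ℕ} (hp : p.Prime) (h13 : 13 ≤ p) : wd p ≤ 4 / p := by
  haveI : Fact p.Prime := ⟨hp⟩
  have hp0 : (0:ℝ) < p := by exact_mod_cast hp.pos
  have h : ((GR Bd p).card : ℝ) ≤ 4 * (p:ℝ) ^ 2 := by exact_mod_cast card_GR_le (p := p) h13
  unfold wd
  rw [div_le_div_iff₀ (by positivity) hp0]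
  calc ((GR Bd p).card : ℝ) * p ≤ 4 * (p:ℝ) ^ 2 * p := by gcongr
    _ = _ := by ring

lemma wd_ge {p : ℕ} (hp : p.Prime) (h13 : 13 ≤ p) : 4 / ((p:ℝ) + 4) ≤ wd p := by
  haveI : Fact p.Prime := ⟨hp⟩
  have hp7 : (13:ℝ) ≤ p := by exact_mod_cast h13
  have hp0 : (0:ℝ) < p := by linarith
  have h : 4 * (p:ℝ) ^ 2 ≤ ((GR Bd p).card : ℝ) + 12 * p := by
    exact_mod_cast card_GR_ge (p := p) h13
  unfold wd
  rw [div_le_div_iff₀ (by positivity) (by positivity)]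
  have h1 : (4 * (p:ℝ) ^ 2 - 12 * p) * (p + 4) ≤ ((GR Bd p).card : ℝ) * (p + 4) :=
    mul_le_mul_of_nonneg_right (by linarith) (by linarith)
  have h2 : 4 * (p:ℝ) ^ 3 ≤ (4 * (p:ℝ) ^ 2 - 12 * p) * (p + 4) := by nlinarith
  linarith

lemma wd_pos {p : ℕ} (hp : p.Prime) (h13 : 13 ≤ p) : 0 < wd p := by
  refine lt_of_lt_of_le ?_ (wd_ge hp h13)
  positivity

lemma wd_lt_one {p : ℕ} (hp : p.Prime) (h13 : 13 ≤ p) : wd p < 1 := by
  refine lt_of_le_of_lt (wd_le hp h13) ?_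
  have hp7 : (13:ℝ) ≤ p := by exact_mod_cast h13
  rw [div_lt_one (by linarith)]
  linarith

lemma wd_ratio {p : ℕ} (hp : p.Prime) (h13 : 13 ≤ p) : 4 / (p:ℝ) ≤ wd p / (1 - wd p) := by
  have hp7 : (13:ℝ) ≤ p := by exact_mod_cast h13
  have hp0 : (0:ℝ) < p := by linarith
  have h1 := wd_ge hp h13
  have h2 := wd_lt_one hp h13
  rw [div_le_div_iff₀ hp0 (by linarith)]
  rw [div_le_iff₀ (by linarith)] at h1
  linarith

end Pool.Agent.SGP51
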