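import Pool.Agent.SGP51.Cross
import Pool.Agent.SqSig.Main

/-!
# Splitting the bilinear form
-/

set_option autoImplicit false

open Complex ArithmeticFunction

namespace Pool.Agent.SGP51

open Pool.Agent.ANT Pool.Agent.SqSig

lemma inner_eq (r Q : ℕ) (f g : ℕ → ℝ) (h : 9 * (Q + 1) < r ^ 2) :
    ∑ x ∈ Finset.Ico 1 (r ^ 2), f x * tr Q g (r ^ 2 - x) =
      ∑ q ∈ Finset.Ioc 0 Q, f (r ^ 2 - 9 * (q + 1)) * g q := by
  classical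
  rw [← Finset.sum_filter_of_ne (p := fun x => 9 ∣ (r ^ 2 - x) ∧ 2 ≤ (r ^ 2 - x) / 9 ∧
    (r ^ 2 - x) / 9 ≤ Q + 1)
    (fun x _ hx => by by_contra h'; exact hx (by rw [tr_zero g h', mul_zero]))]
  refine Finset.sum_nbij' (fun x => (r ^ 2 - x) / 9 - 1) (fun q => r ^ 2 - 9 * (q + 1)) ?_ ?_ ?_ ?_ ?_
  · intro x hx
    obtain ⟨h1, h2, h3, h4⟩ := Finset.mem_filter.mp hx
    exact Finset.mem_Ioc.mpr ⟨by omega, by omega⟩
  · intro q hq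
    obtain ⟨h1, h2⟩ := Finset.mem_Ioc.mp hq
    have e0 : r ^ 2 - (r ^ 2 - 9 * (q + 1)) = 9 * (q + 1) := by omega
    have e : 9 * (q + 1) / 9 = q + 1 := Nat.mul_div_cancel_left _ (by norm_num)
    refine Finset.mem_filter.mpr ⟨Finset.mem_Ico.mpr ⟨by omega, by omega⟩, ?_⟩
    rw [e0, e]
    exact ⟨Dvd.intro _ rfl, by omega, by omega⟩
  · intro x hx
    obtain ⟨h1, h2, h3, h4⟩ := Finset.mem_filter.mp hx
    obtain ⟨h6, h7⟩ := Finset.mem_Ico.mp h1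
    have h5 := Nat.mul_div_cancel' h2
    show r ^ 2 - 9 * ((r ^ 2 - x) / 9 - 1 + 1) = x
    rw [Nat.sub_add_cancel (by omega), h5]
    omega
  · intro q hq
    obtain ⟨h1, h2⟩ := Finset.mem_Ioc.mp hq
    have e0 : r ^ 2 - (r ^ 2 - 9 * (q + 1)) = 9 * (q + 1) := by omega
    show (r ^ 2 - (r ^ 2 - 9 * (q + 1))) / 9 - 1 = q
    rw [e0, Nat.mul_div_cancel_left _ (by norm_num), Nat.add_sub_cancel]
  · intro x hx
    obtain ⟨h1, h2, h3, h4⟩ := Finset.mem_filter.mp hx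
    obtain ⟨h6, h7⟩ := Finset.mem_Ico.mp h1
    have h5 := Nat.mul_div_cancel' h2
    have e1 : (r ^ 2 - x) / 9 - 1 + 1 = (r ^ 2 - x) / 9 := Nat.sub_add_cancel (by omega)
    have e2 : r ^ 2 - x = 9 * ((r ^ 2 - x) / 9 - 1 + 1) := by rw [e1, h5]
    have e3 : r ^ 2 - 9 * ((r ^ 2 - x) / 9 - 1 + 1) = x := by rw [← e2]; omega
    have e4 : tr Q g (r ^ 2 - x) = g ((r ^ 2 - x) / 9 - 1) := by
      unfold tr
      rw [if_pos ⟨h2, h3, h4⟩]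
    show f x * tr Q g (r ^ 2 - x) = f (r ^ 2 - 9 * ((r ^ 2 - x) / 9 - 1 + 1)) * g ((r ^ 2 - x) / 9 - 1)
    rw [e3, e4]

theorem BB_eq (S Q : ℕ) (f g : ℕ → ℝ) (h : 9 * (Q + 1) < (S / 2 + 1) ^ 2) :
    BB S Q f g = Bf S f (tr Q g) - Bf (S / 2) f (tr Q g) := by
  have h1 : Bf S f (tr Q g) = Bf (S / 2) f (tr Q g) +
      ∑ r ∈ Finset.Ioc (S / 2) S, ∑ x ∈ Finset.Ico 1 (r ^ 2), f x * tr Q g (r ^ 2 - x) := by
    unfold Bf
    rw [Finset.sum_Ioc_consecutive _ (Nat.zero_le _) (Nat.div_le_self S 2)]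
  rw [h1, add_sub_cancel_left]
  unfold BB
  refine Finset.sum_congr rfl fun r hr => ?_
  have hr1 : S / 2 + 1 ≤ r := (Finset.mem_Ioc.mp hr).1
  have hr2 : (S / 2 + 1) ^ 2 ≤ r ^ 2 := Nat.pow_le_pow_left hr1 2
  exact (inner_eq r Q f g (lt_of_lt_of_le h hr2)).symm

lemma QQ_ok {S : ℕ} (hS : 100 ≤ S) : 9 * (QQ S + 1) < (S / 2 + 1) ^ 2 := by
  unfold QQ
  have h1 : 50 * (S ^ 2 / 50) ≤ S ^ 2 := Nat.mul_div_le _ _
  have h2 : S ≤ 2 * (S / 2) + 1 := by omega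
  have h3 : 50 ≤ S / 2 := by omega
  generalize S / 2 = k at h2 h3
  generalize S ^ 2 / 50 = m at h1
  have h4 : S ^ 2 ≤ (2 * k + 1) ^ 2 := Nat.pow_le_pow_left h2 2
  nlinarith

lemma BB_split (S Q D : ℕ) : BB S Q (fun n => Λ n) (fun n => Λ n) =
    BB S Q (sh D) (sh D) + BB S Q (fun n => Λ n) (er D) + BB S Q (er D) (sh D) := by
  unfold BB
  rw [← Finset.sum_add_distrib, ← Finset.sum_add_distrib]
  refine Finset.sum_congr rfl fun r _ => ?_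
  rw [← Finset.sum_add_distrib, ← Finset.sum_add_distrib]
  refine Finset.sum_congr rfl fun q _ => ?_
  have h1 := lam_eq D (r ^ 2 - 9 * (q + 1))
  have h2 := lam_eq D q
  show Λ (r ^ 2 - 9 * (q + 1)) * Λ q = sh D (r ^ 2 - 9 * (q + 1)) * sh D q +
    Λ (r ^ 2 - 9 * (q + 1)) * er D q + er D (r ^ 2 - 9 * (q + 1)) * sh D q
  rw [h2, h1]
  ring

lemma quartic {C ε : ℝ} {S : ℕ} (hS : 1 ≤ S) (hε : 0 < ε) (h1 : C / ε ^ 4 ≤ LL (S ^ 2)) {b : ℝ}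
    (hb : b ^ 4 ≤ C * ((S:ℝ) ^ 3) ^ 4 / LL (S ^ 2) ^ 3) : |b| ≤ ε * (S:ℝ) ^ 3 := by
  have hL := one_le_LL (S ^ 2)
  have h6 : C * ((S:ℝ) ^ 3) ^ 4 / LL (S ^ 2) ^ 3 ≤ (ε * (S:ℝ) ^ 3) ^ 4 := by
    rw [div_le_iff₀ (by positivity)]
    have h7 : LL (S ^ 2) ≤ LL (S ^ 2) ^ 3 := by
      calc LL (S ^ 2) = LL (S ^ 2) ^ 1 := (pow_one _).symm
        _ ≤ _ := pow_le_pow_right₀ hL (by norm_num)
    have h8 : C ≤ LL (S ^ 2) ^ 3 * ε ^ 4 := by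
      rw [div_le_iff₀ (by positivity)] at h1
      refine h1.trans ?_
      gcongr
    calc C * ((S:ℝ) ^ 3) ^ 4 ≤ (LL (S ^ 2) ^ 3 * ε ^ 4) * ((S:ℝ) ^ 3) ^ 4 := by gcongr
      _ = _ := by ring
  have h10 : |b| ^ 4 ≤ (ε * (S:ℝ) ^ 3) ^ 4 := by
    have e : |b| ^ 4 = b ^ 4 := by
      have e : |b| ^ 4 = (|b| ^ 2) ^ 2 := by ring
      rw [e, sq_abs]; ring
    rw [e]
    exact hb.trans h6
  exact le_of_pow_le_pow_left₀ (by norm_num) (by positivity) h10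

theorem BB_lower : ∀ ε : ℝ, 0 < ε → ∀ᶠ S : ℕ in Filter.atTop,
    BB S (QQ S) (sh (Dc S)) (sh (Dc S)) - ε * (S:ℝ) ^ 3 ≤
      BB S (QQ S) (fun n => Λ n) (fun n => Λ n) := by
  intro ε hε
  obtain ⟨C1, hC1, hcr1⟩ := cross1
  obtain ⟨C2, hC2, hcr2⟩ := cross2
  have hε4 : 0 < ε / 4 := by linarith
  have e1 : ∀ᶠ S : ℕ in Filter.atTop, C1 / (ε / 4) ^ 4 ≤ LL (S ^ 2) :=
    tendsto_LL.eventually_ge_atTop _
  have e2 : ∀ᶠ S : ℕ in Filter.atTop, C2 / (ε / 4) ^ 4 ≤ LL (S ^ 2) :=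
    tendsto_LL.eventually_ge_atTop _
  filter_upwards [e1, e2, Filter.eventually_ge_atTop 100] with S h1 h2 hS
  have hS1 : 1 ≤ S := by omega
  have hS2 : S / 2 ≤ S := Nat.div_le_self S 2
  set D := Dc S with hD
  set Q := QQ S with hQ
  have hok : 9 * (Q + 1) < (S / 2 + 1) ^ 2 := QQ_ok hS
  have hlam := l2_lam (S ^ 2)
  have htr := (l2_tr Q (S ^ 2) (sh D)).trans (l2_sh D (S ^ 2))
  have a1 := quartic hS1 hε4 h2 (hcr2 S S Q (fun n => Λ n) hS1 le_rfl hlam)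
  have a2 := quartic hS1 hε4 h2 (hcr2 S (S / 2) Q (fun n => Λ n) hS1 hS2 hlam)
  have a3 := quartic hS1 hε4 h1 (hcr1 S S (tr Q (sh D)) hS1 le_rfl htr)
  have a4 := quartic hS1 hε4 h1 (hcr1 S (S / 2) (tr Q (sh D)) hS1 hS2 htr)
  have b1 : BB S Q (fun n => Λ n) (er D) = Bf S (fun n => Λ n) (tr Q (er D)) -
      Bf (S / 2) (fun n => Λ n) (tr Q (er D)) := BB_eq S Q _ _ hok
  have b2 : BB S Q (er D) (sh D) = Bf S (tr Q (sh D)) (er D) -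
      Bf (S / 2) (tr Q (sh D)) (er D) := by
    rw [BB_eq S Q (er D) (sh D) hok, Bf_comm S, Bf_comm (S / 2)]
  rw [BB_split S Q D, b1, b2]
  rw [abs_le] at a1 a2 a3 a4
  linarith [a1.1, a2.2, a3.1, a4.2]

end Pool.Agent.SGP51
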